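import Mathlib

/-!
# Chains instead of entries

Every entry `(i, j)` of an `n × n` matrix is replaced by a path with `k` new indices, with `k + 1`
entries `x` along the path and `k` diagonal entries `d`. The determinant of the new matrix is a sum
over permutations `σ` of `± ∏ X_s ∏ D_s`, where `X_s` is the product of the entries `x` of the path
of a cell `s` on `σ` and `D_s` the product of the entries `d` for the other cells. We prove only
what is needed for counting.
-/

set_option autoImplicit false

namespace Pool.Agent.TH925.DP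

open Finset Matrix

/-- the indices: `n` old ones and `k` new ones for each of the `n * n` cells -/
abbrev Idx (n k : ℕ) : Type := Fin n ⊕ ((Fin n × Fin n) × Fin k)

/-- the entries of a chain: `k + 1` entries along the path and `k` diagonal entries -/
abbrev Cfg (K : Type) (k : ℕ) : Type := (Fin (k + 1) → K) × (Fin k → K)

section

variable {K : Type} [Field K] {n k : ℕ}

/-- the matrix with given chains -/
def mat (c : Fin n × Fin n → Cfg K k) : Matrix (Idx n k) (Idx n k) K
  | .inl _, .inl _ => 0
  | .inl i, .inr (s, l) => if s.1 = i ∧ l.val = 0 then (c s).1 0 else 0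
  | .inr (s, l), .inl j => if s.2 = j ∧ l.val + 1 = k then (c s).1 l.succ else 0
  | .inr (s, l), .inr (s', l') =>
    if s = s' then (if l = l' then (c s).2 l else if l'.val = l.val + 1 then (c s).1 l.succ else 0)
    else 0

/-- the values of a vector along a chain -/
def along (v : Idx n k → K) (s : Fin n × Fin n) (m : Fin (k + 1)) : K :=
  if h : m.val < k then v (.inr (s, ⟨m.val, h⟩)) else v (.inl s.2)

omit [Field K] in
theorem along_castSucc (v : Idx n k → K) (s : Fin n × Fin n) (l : Fin k) :
    along v s l.castSucc = v (.inr (s, l)) := by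
  unfold along
  rw [dif_pos (by simp)]
  rfl

omit [Field K] in
theorem along_last (v : Idx n k → K) (s : Fin n × Fin n) :
    along v s (Fin.last k) = v (.inl s.2) := by
  unfold along
  rw [dif_neg (by simp)]

theorem mulVec_inr (c : Fin n × Fin n → Cfg K k) (v : Idx n k → K) (s : Fin n × Fin n)
    (l : Fin k) : (mat c *ᵥ v) (.inr (s, l)) =
      (c s).2 l * along v s l.castSucc + (c s).1 l.succ * along v s l.succ := by
  rw [Matrix.mulVec, dotProduct, Fintype.sum_sum_type, Fintype.sum_prod_type]
  have h1 : ∑ j : Fin n, mat c (.inr (s, l)) (.inl j) * v (.inl j) =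
      if l.val + 1 = k then (c s).1 l.succ * v (.inl s.2) else 0 := by
    rw [Finset.sum_eq_single s.2]
    · simp only [mat, true_and]
      split_ifs <;> simp
    · intro j _ hj
      simp only [mat]
      rw [if_neg (fun h => hj h.1.symm), zero_mul]
    · intro h
      exact absurd (Finset.mem_univ _) h
  have h2 : ∑ s' : Fin n × Fin n, ∑ l' : Fin k, mat c (.inr (s, l)) (.inr (s', l')) *
      v (.inr (s', l')) = ∑ l' : Fin k, mat c (.inr (s, l)) (.inr (s, l')) * v (.inr (s, l')) := by
    rw [Finset.sum_eq_single s]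
    · intro s' _ hs'
      refine Finset.sum_eq_zero fun l' _ => ?_
      simp only [mat]
      rw [if_neg (fun h => hs' h.symm), zero_mul]
    · intro h
      exact absurd (Finset.mem_univ _) h
  rw [h1, h2]
  have h3 : ∑ l' : Fin k, mat c (.inr (s, l)) (.inr (s, l')) * v (.inr (s, l')) =
      (c s).2 l * v (.inr (s, l)) +
        ∑ l' : Fin k, (if l'.val = l.val + 1 then (c s).1 l.succ * v (.inr (s, l')) else 0) := by
    have h4 : ∀ l' : Fin k, mat c (.inr (s, l)) (.inr (s, l')) * v (.inr (s, l')) =
        (if l = l' then (c s).2 l * v (.inr (s, l)) else 0) +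
          (if l'.val = l.val + 1 then (c s).1 l.succ * v (.inr (s, l')) else 0) := by
      intro l'
      simp only [mat, if_true]
      by_cases h5 : l = l'
      · subst h5
        rw [if_pos rfl, if_pos rfl, if_neg (by omega), add_zero]
      · rw [if_neg h5, if_neg h5, zero_add]
        split_ifs <;> simp
    rw [Finset.sum_congr rfl (fun l' _ => h4 l'), Finset.sum_add_distrib]
    congr 1
    rw [Finset.sum_ite_eq]
    simp
  rw [h3, along_castSucc]
  by_cases hl : l.val + 1 = k
  · rw [if_pos hl]
    have h5 : ∑ l' : Fin k, (if l'.val = l.val + 1 then (c s).1 l.succ * v (.inr (s, l')) else 0)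
        = 0 := by
      refine Finset.sum_eq_zero fun l' _ => ?_
      rw [if_neg (by have := l'.isLt; omega)]
    have h6 : along v s l.succ = v (.inl s.2) := by
      unfold along
      rw [dif_neg (by rw [Fin.val_succ]; omega)]
    rw [h5, h6]
    ring
  · rw [if_neg hl]
    have hl' : l.val + 1 < k := by
      have := l.isLt
      omega
    have h5 : ∑ l' : Fin k, (if l'.val = l.val + 1 then (c s).1 l.succ * v (.inr (s, l')) else 0)
        = (c s).1 l.succ * v (.inr (s, ⟨l.val + 1, hl'⟩)) := by
      rw [Finset.sum_eq_single ⟨l.val + 1, hl'⟩]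
      · rw [if_pos rfl]
      · intro l' _ h
        rw [if_neg]
        intro h7
        exact h (Fin.ext h7)
      · intro h
        exact absurd (Finset.mem_univ _) h
    have h6 : along v s l.succ = v (.inr (s, ⟨l.val + 1, hl'⟩)) := by
      unfold along
      rw [dif_pos (by rw [Fin.val_succ]; omega)]
      rfl
    rw [h5, h6]
    ring

theorem mulVec_inl (hk : 0 < k) (c : Fin n × Fin n → Cfg K k) (v : Idx n k → K) (i : Fin n) :
    (mat c *ᵥ v) (.inl i) = ∑ j : Fin n, (c (i, j)).1 0 * along v (i, j) 0 := by
  rw [Matrix.mulVec, dotProduct, Fintype.sum_sum_type, Fintype.sum_prod_type]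
  have h1 : ∑ j : Fin n, mat c (.inl i) (.inl j) * v (.inl j) = 0 :=
    Finset.sum_eq_zero fun j _ => by simp only [mat, zero_mul]
  have h2 : ∀ s : Fin n × Fin n, ∑ l : Fin k, mat c (.inl i) (.inr (s, l)) * v (.inr (s, l)) =
      if s.1 = i then (c s).1 0 * along v s 0 else 0 := by
    intro s
    have h3 : along v s 0 = v (.inr (s, ⟨0, hk⟩)) := by
      unfold along
      rw [dif_pos (by simpa using hk)]
      rfl
    rw [Finset.sum_eq_single ⟨0, hk⟩]
    · simp only [mat, and_true]
      split_ifs
      · rw [h3]
      · rw [zero_mul]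
    · intro l _ hl
      simp only [mat]
      rw [if_neg, zero_mul]
      rintro ⟨_, h4⟩
      exact hl (Fin.ext h4)
    · intro h
      exact absurd (Finset.mem_univ _) h
  rw [h1, zero_add, Finset.sum_congr rfl (fun s _ => h2 s), Fintype.sum_prod_type,
    Finset.sum_eq_single i]
  · exact Finset.sum_congr rfl fun j _ => by rw [if_pos rfl]
  · intro i' _ hi'
    exact Finset.sum_eq_zero fun j _ => by rw [if_neg hi']
  · intro h
    exact absurd (Finset.mem_univ _) h

/-- The matrix is invertible if the chains without zero along the path are those on a permutation,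
and the others have no zero on the diagonal. -/
theorem det_ne_zero (hk : 0 < k) (c : Fin n × Fin n → Cfg K k) (σ : Equiv.Perm (Fin n))
    (h1 : ∀ s : Fin n × Fin n, s.2 = σ s.1 → (∀ m, (c s).1 m ≠ 0) ∧ ∃ l, (c s).2 l = 0)
    (h0 : ∀ s : Fin n × Fin n, s.2 ≠ σ s.1 → (∃ m, (c s).1 m = 0) ∧ ∀ l, (c s).2 l ≠ 0) :
    (mat c).det ≠ 0 := by
  intro hdet
  obtain ⟨v, hv, hv0⟩ := Matrix.exists_mulVec_eq_zero_iff.2 hdet
  have R : ∀ (s : Fin n × Fin n) (l : Fin k),
      (c s).2 l * along v s l.castSucc + (c s).1 l.succ * along v s l.succ = 0 := by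
    intro s l
    rw [← mulVec_inr, hv0]
    rfl
  have hon : ∀ s : Fin n × Fin n, s.2 = σ s.1 → v (.inl s.2) = 0 := by
    intro s hs
    obtain ⟨hx, l0, hl0⟩ := h1 s hs
    have h2 : ∀ m : Fin (k + 1), l0.succ ≤ m → along v s m = 0 := by
      intro m
      induction m using Fin.induction with
      | zero => intro h; exact absurd h (by simp [Fin.succ_ne_zero])
      | succ l ih =>
        intro hl
        have hR := R s l
        by_cases h3 : l = l0
        · rw [h3, hl0, zero_mul, zero_add] at hR
          rw [h3]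
          exact (mul_eq_zero.1 hR).resolve_left (hx _)
        · have h4 : l0.succ ≤ l.castSucc := by
            rw [Fin.le_def, Fin.val_succ, Fin.val_castSucc]
            rw [Fin.le_def, Fin.val_succ, Fin.val_succ] at hl
            have : l.val ≠ l0.val := fun h => h3 (Fin.ext h)
            omega
          rw [ih h4, mul_zero, zero_add] at hR
          exact (mul_eq_zero.1 hR).resolve_left (hx _)
    rw [← along_last v s]
    exact h2 _ (Fin.le_last _)
  have hj : ∀ j : Fin n, v (.inl j) = 0 := by
    intro j
    have := hon (σ.symm j, j) (by simp)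
    exact this
  have hoff : ∀ s : Fin n × Fin n, s.2 ≠ σ s.1 → ∀ m, along v s m = 0 := by
    intro s hs m
    obtain ⟨_, hd⟩ := h0 s hs
    induction m using Fin.reverseInduction with
    | last => rw [along_last]; exact hj _
    | cast l ih =>
      have hR := R s l
      rw [ih, mul_zero, add_zero] at hR
      exact (mul_eq_zero.1 hR).resolve_left (hd _)
  have hon' : ∀ s : Fin n × Fin n, s.2 = σ s.1 → ∀ m, along v s m = 0 := by
    intro s hs m
    obtain ⟨hx, _⟩ := h1 s hs
    induction m using Fin.induction with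
    | zero =>
      have h2 := mulVec_inl hk c v s.1
      rw [hv0, Finset.sum_eq_single s.2] at h2
      · exact (mul_eq_zero.1 h2.symm).resolve_left (hx _)
      · intro j _ hne
        rw [hoff (s.1, j) (by rw [← hs]; exact hne), mul_zero]
      · intro h
        exact absurd (Finset.mem_univ _) h
    | succ l ih =>
      have hR := R s l
      rw [ih, mul_zero, zero_add] at hR
      exact (mul_eq_zero.1 hR).resolve_left (hx _)
  apply hv
  funext a
  rcases a with j | ⟨s, l⟩
  · exact hj j
  · show v (.inr (s, l)) = 0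
    rw [← along_castSucc v s l]
    by_cases hs : s.2 = σ s.1
    · exact hon' s hs _
    · exact hoff s hs _

/-- If the matrix is invertible, then there is a permutation such that the chains on it have no
zero along the path and the others have no zero on the diagonal. -/
theorem perm_of_det (hk : 0 < k) (c : Fin n × Fin n → Cfg K k) (hdet : (mat c).det ≠ 0) :
    ∃ σ : Equiv.Perm (Fin n), ∀ s : Fin n × Fin n,
      (s.2 = σ s.1 → ∀ m, (c s).1 m ≠ 0) ∧ (s.2 ≠ σ s.1 → ∀ l, (c s).2 l ≠ 0) := by
  rw [Matrix.det_apply] at hdet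
  obtain ⟨τ, _, hτ⟩ := Finset.exists_ne_zero_of_sum_ne_zero hdet
  have hτ' : ∀ a, mat c (τ a) a ≠ 0 := by
    intro a ha
    apply hτ
    have h0 : ∏ i, mat c (τ i) i = 0 := Finset.prod_eq_zero (Finset.mem_univ a) ha
    rw [h0, smul_zero]
  have hτs : ∀ a, mat c a (τ.symm a) ≠ 0 := by
    intro a
    have := hτ' (τ.symm a)
    rwa [Equiv.apply_symm_apply] at this
  -- the columns
  have F1 : ∀ (s : Fin n × Fin n) (l : Fin k), (τ (.inr (s, l)) = .inl s.1 ∧ l.val = 0 ∧
      (c s).1 0 ≠ 0) ∨ (τ (.inr (s, l)) = .inr (s, l) ∧ (c s).2 l ≠ 0) ∨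
      ∃ l' : Fin k, l.val = l'.val + 1 ∧ τ (.inr (s, l)) = .inr (s, l') ∧ (c s).1 l'.succ ≠ 0 := by
    intro s l
    have h := hτ' (.inr (s, l))
    rcases h2 : τ (.inr (s, l)) with i | ⟨s', l'⟩
    · rw [h2] at h
      simp only [mat] at h
      left
      by_cases h3 : s.1 = i ∧ l.val = 0
      · rw [if_pos h3] at h
        exact ⟨by rw [h3.1], h3.2, h⟩
      · rw [if_neg h3] at h
        exact absurd rfl h
    · rw [h2] at h
      simp only [mat] at h
      right
      by_cases h3 : s' = s
      · subst h3
        rw [if_pos rfl] at h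
        by_cases h4 : l' = l
        · subst h4
          rw [if_pos rfl] at h
          exact Or.inl ⟨rfl, h⟩
        · rw [if_neg h4] at h
          by_cases h5 : l.val = l'.val + 1
          · rw [if_pos h5] at h
            exact Or.inr ⟨l', h5, rfl, h⟩
          · rw [if_neg h5] at h
            exact absurd rfl h
      · rw [if_neg h3] at h
        exact absurd rfl h
  -- the rows
  have F2 : ∀ (s : Fin n × Fin n) (l : Fin k), τ.symm (.inr (s, l)) = .inr (s, l) ∨
      (∃ l' : Fin k, l'.val = l.val + 1 ∧ τ.symm (.inr (s, l)) = .inr (s, l')) ∨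
      (l.val + 1 = k ∧ τ.symm (.inr (s, l)) = .inl s.2 ∧ (c s).1 l.succ ≠ 0) := by
    intro s l
    have h := hτs (.inr (s, l))
    rcases h2 : τ.symm (.inr (s, l)) with j | ⟨s', l'⟩
    · rw [h2] at h
      simp only [mat] at h
      right; right
      by_cases h3 : s.2 = j ∧ l.val + 1 = k
      · rw [if_pos h3] at h
        exact ⟨h3.2, by rw [h3.1], h⟩
      · rw [if_neg h3] at h
        exact absurd rfl h
    · rw [h2] at h
      simp only [mat] at h
      by_cases h3 : s = s'
      · subst h3
        rw [if_pos rfl] at h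
        by_cases h4 : l = l'
        · subst h4
          exact Or.inl rfl
        · rw [if_neg h4] at h
          by_cases h5 : l'.val = l.val + 1
          · exact Or.inr (Or.inl ⟨l', h5, rfl⟩)
          · rw [if_neg h5] at h
            exact absurd rfl h
      · rw [if_neg h3] at h
        exact absurd rfl h
  have F3 : ∀ i : Fin n, ∃ j : Fin n, τ (.inr ((i, j), ⟨0, hk⟩)) = .inl i := by
    intro i
    have h := hτs (.inl i)
    rcases h2 : τ.symm (.inl i) with j | ⟨s', l'⟩
    · rw [h2] at h
      simp only [mat] at h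
      exact absurd rfl h
    · rw [h2] at h
      simp only [mat] at h
      by_cases h3 : s'.1 = i ∧ l'.val = 0
      · refine ⟨s'.2, ?_⟩
        rw [Equiv.symm_apply_eq] at h2
        rw [h2]
        have e1 : (i, s'.2) = s' := Prod.ext h3.1.symm rfl
        have e2 : (⟨0, hk⟩ : Fin k) = l' := Fin.ext h3.2.symm
        rw [e1, e2]
      · rw [if_neg h3] at h
        exact absurd rfl h
  -- going along a chain
  have down : ∀ (s : Fin n × Fin n) (l l' : Fin k), l.val = l'.val + 1 →
      τ (.inr (s, l)) ≠ .inr (s, l) → τ (.inr (s, l')) ≠ .inr (s, l') := by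
    intro s l l' hl h h'
    rcases F1 s l with h1 | h1 | ⟨l'', h2, h3, _⟩
    · omega
    · exact h h1.1
    · have h4 : l'' = l' := Fin.ext (by omega)
      rw [h4, ← h'] at h3
      have h5 := τ.injective h3
      simp only [Sum.inr.injEq, Prod.mk.injEq, true_and] at h5
      rw [h5] at hl
      omega
  have up : ∀ (s : Fin n × Fin n) (l l' : Fin k), l'.val = l.val + 1 →
      τ (.inr (s, l)) ≠ .inr (s, l) → τ (.inr (s, l')) ≠ .inr (s, l') := by
    intro s l l' hl h h'
    rcases F2 s l with h1 | ⟨l'', h2, h3⟩ | ⟨h1, _, _⟩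
    · exact h (by rw [Equiv.symm_apply_eq] at h1; exact h1.symm)
    · have h4 : l'' = l' := Fin.ext (by omega)
      rw [Equiv.symm_apply_eq, h4, h'] at h3
      simp only [Sum.inr.injEq, Prod.mk.injEq, true_and] at h3
      rw [h3] at hl
      omega
    · have := l'.isLt
      omega
  have updown : ∀ (s : Fin n × Fin n), τ (.inr (s, ⟨0, hk⟩)) ≠ .inr (s, ⟨0, hk⟩) →
      ∀ l : Fin k, τ (.inr (s, l)) ≠ .inr (s, l) := by
    intro s h
    have key : ∀ (m : ℕ) (hm : m < k), τ (.inr (s, ⟨m, hm⟩)) ≠ .inr (s, ⟨m, hm⟩) := by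
      intro m
      induction m with
      | zero => intro hm; exact h
      | succ m ih => intro hm; exact up s ⟨m, by omega⟩ ⟨m + 1, hm⟩ rfl (ih (by omega))
    intro l
    exact key l.val l.isLt
  have updown' : ∀ (s : Fin n × Fin n) (l : Fin k), τ (.inr (s, l)) ≠ .inr (s, l) →
      τ (.inr (s, ⟨0, hk⟩)) ≠ .inr (s, ⟨0, hk⟩) := by
    intro s
    have key : ∀ (m : ℕ) (hm : m < k), τ (.inr (s, ⟨m, hm⟩)) ≠ .inr (s, ⟨m, hm⟩) →
        τ (.inr (s, ⟨0, hk⟩)) ≠ .inr (s, ⟨0, hk⟩) := by
      intro m
      induction m with
      | zero => intro hm h; exact h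
      | succ m ih =>
        intro hm h
        exact ih (by omega) (down s ⟨m + 1, hm⟩ ⟨m, by omega⟩ rfl h)
    intro l h
    exact key l.val l.isLt h
  -- the top of a chain
  have top : ∀ s : Fin n × Fin n, τ (.inr (s, ⟨0, hk⟩)) ≠ .inr (s, ⟨0, hk⟩) →
      τ (.inl s.2) = .inr (s, ⟨k - 1, by omega⟩) ∧ ∀ m, (c s).1 m ≠ 0 := by
    intro s h
    have h1 := updown s h
    rcases F2 s ⟨k - 1, by omega⟩ with h2 | ⟨l', h2, _⟩ | ⟨_, h3, h4⟩
    · exfalso
      rw [Equiv.symm_apply_eq] at h2
      exact h1 _ h2.symm
    · exfalso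
      have := l'.isLt
      simp only at h2
      omega
    · refine ⟨by rw [Equiv.symm_apply_eq] at h3; exact h3.symm, ?_⟩
      intro m
      induction m using Fin.cases with
      | zero =>
        rcases F1 s ⟨0, hk⟩ with h5 | h5 | ⟨l', h6, _⟩
        · exact h5.2.2
        · exact absurd h5.1 h
        · simp only at h6
          omega
      | succ l =>
        by_cases hl : l.val + 1 = k
        · have h6 : (⟨k - 1, by omega⟩ : Fin k) = l := Fin.ext (by simp only; omega)
          rw [h6] at h4
          exact h4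
        · have hl' : l.val + 1 < k := by
            have := l.isLt
            omega
          rcases F1 s ⟨l.val + 1, hl'⟩ with h5 | h5 | ⟨l', h6, _, h7⟩
          · simp only at h5
            omega
          · exact absurd h5.1 (h1 _)
          · have h8 : l' = l := Fin.ext (by simp only at h6; omega)
            rwa [h8] at h7
  choose g hg using F3
  have hne : ∀ (s : Fin n × Fin n) (a : Fin n), τ (.inr (s, ⟨0, hk⟩)) = .inl a →
      τ (.inr (s, ⟨0, hk⟩)) ≠ .inr (s, ⟨0, hk⟩) := by
    intro s a h h'
    rw [h] at h'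
    exact absurd h' (by simp)
  have ginj : Function.Injective g := by
    intro i i' h
    have h1 := (top (i, g i) (hne _ _ (hg i))).1
    have h2 := (top (i', g i') (hne _ _ (hg i'))).1
    simp only at h1 h2
    rw [h, h2] at h1
    simp only [Sum.inr.injEq, Prod.mk.injEq, and_true] at h1
    exact h1.symm
  refine ⟨Equiv.ofBijective g (Finite.injective_iff_bijective.1 ginj), fun s => ⟨?_, ?_⟩⟩
  · intro hs
    rw [Equiv.ofBijective_apply] at hs
    have h1 : s = (s.1, g s.1) := Prod.ext rfl hs
    rw [h1]
    exact (top (s.1, g s.1) (hne _ _ (hg s.1))).2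
  · intro hs l
    rw [Equiv.ofBijective_apply] at hs
    rcases F1 s l with h1 | h1 | ⟨l', h2, h3, _⟩
    · exfalso
      have h2 : l = ⟨0, hk⟩ := Fin.ext h1.2.1
      have h3 := h1.1
      rw [h2, ← hg s.1] at h3
      have h4 := τ.injective h3
      simp only [Sum.inr.injEq, Prod.mk.injEq, and_true] at h4
      exact hs (by conv_lhs => rw [h4])
    · exact h1.2
    · exfalso
      have h4 : τ (.inr (s, l)) ≠ .inr (s, l) := by
        rw [h3]
        intro h5
        simp only [Sum.inr.injEq, Prod.mk.injEq, true_and] at h5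
        rw [h5] at h2
        omega
      have h5 := updown' s l h4
      rcases F1 s ⟨0, hk⟩ with h6 | h6 | ⟨l'', h6, _⟩
      · have h7 := h6.1
        rw [← hg s.1] at h7
        have h8 := τ.injective h7
        simp only [Sum.inr.injEq, Prod.mk.injEq, and_true] at h8
        exact hs (by conv_lhs => rw [h8])
      · exact h5 h6.1
      · simp only at h6
        omega

end

end Pool.Agent.TH925.DP
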