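import Pool.Agent.TH925.DP.Core

/-!
# Counting the invertible matrices with chains
-/

set_option autoImplicit false

namespace Pool.Agent.TH925.DP

open Finset Matrix

section Classes

variable (K : Type) [Field K] [Fintype K] [DecidableEq K] (k : ℕ)

/-- no zero along the path, a zero on the diagonal -/
def C1 : Finset (Cfg K k) :=
  (univ.filter fun x : Fin (k + 1) → K => ∀ m, x m ≠ 0) ×ˢ
    (univ.filter fun d : Fin k → K => ∃ l, d l = 0)

/-- a zero along the path, no zero on the diagonal -/
def C0 : Finset (Cfg K k) :=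
  (univ.filter fun x : Fin (k + 1) → K => ∃ m, x m = 0) ×ˢ
    (univ.filter fun d : Fin k → K => ∀ l, d l ≠ 0)

/-- the first entry of the path is zero, no zero on the diagonal -/
def C0' : Finset (Cfg K k) :=
  (univ.filter fun x : Fin (k + 1) → K => x 0 = 0) ×ˢ
    (univ.filter fun d : Fin k → K => ∀ l, d l ≠ 0)

/-- no zero -/
def C2 : Finset (Cfg K k) :=
  (univ.filter fun x : Fin (k + 1) → K => ∀ m, x m ≠ 0) ×ˢ
    (univ.filter fun d : Fin k → K => ∀ l, d l ≠ 0)

/-- no zero along the path or no zero on the diagonal -/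
def CT : Finset (Cfg K k) :=
  univ.filter fun c : Cfg K k => (∀ m, c.1 m ≠ 0) ∨ ∀ l, c.2 l ≠ 0

theorem card_nz (m : ℕ) : (univ.filter fun x : Fin m → K => ∀ i, x i ≠ 0).card =
    (Fintype.card K - 1) ^ m := by
  have h : (univ.filter fun x : Fin m → K => ∀ i, x i ≠ 0) =
      Fintype.piFinset (fun _ : Fin m => univ.filter fun a : K => a ≠ 0) := by
    ext x
    simp
  have h2 : (univ.filter fun a : K => a ≠ 0).card = Fintype.card K - 1 := by
    rw [Finset.filter_ne', Finset.card_erase_of_mem (Finset.mem_univ _), Finset.card_univ]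
  rw [h, Fintype.card_piFinset, Finset.prod_const, h2, Finset.card_univ, Fintype.card_fin]

theorem card_z (m : ℕ) : (univ.filter fun x : Fin m → K => ∃ i, x i = 0).card =
    Fintype.card K ^ m - (Fintype.card K - 1) ^ m := by
  have h : (univ.filter fun x : Fin m → K => ∃ i, x i = 0) =
      (univ.filter fun x : Fin m → K => ∀ i, x i ≠ 0)ᶜ := by
    ext x
    simp
  rw [h, Finset.card_compl, card_nz, Fintype.card_fun, Fintype.card_fin]

theorem card_x0 : (univ.filter fun x : Fin (k + 1) → K => x 0 = 0).card =
    Fintype.card K ^ k := by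
  have h : (univ.filter fun x : Fin (k + 1) → K => x 0 = 0) =
      Fintype.piFinset (fun i : Fin (k + 1) => if i = 0 then ({0} : Finset K) else univ) := by
    ext x
    simp only [mem_filter, mem_univ, true_and, Fintype.mem_piFinset]
    constructor
    · intro h i
      by_cases hi : i = 0
      · rw [if_pos hi, hi, h]
        exact Finset.mem_singleton_self _
      · rw [if_neg hi]
        exact Finset.mem_univ _
    · intro h
      have := h 0
      rwa [if_pos rfl, Finset.mem_singleton] at this
  rw [h, Fintype.card_piFinset, Fin.prod_univ_succ]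
  simp [Fin.succ_ne_zero]

theorem card_C1 : (C1 K k).card = (Fintype.card K - 1) ^ (k + 1) *
    (Fintype.card K ^ k - (Fintype.card K - 1) ^ k) := by
  rw [C1, Finset.card_product, card_nz, card_z]

theorem card_C0 : (C0 K k).card = (Fintype.card K ^ (k + 1) - (Fintype.card K - 1) ^ (k + 1)) *
    (Fintype.card K - 1) ^ k := by
  rw [C0, Finset.card_product, card_nz, card_z]

theorem card_C0' : (C0' K k).card = Fintype.card K ^ k * (Fintype.card K - 1) ^ k := by
  rw [C0', Finset.card_product, card_nz, card_x0]

theorem card_C2 : (C2 K k).card = (Fintype.card K - 1) ^ (k + 1) * (Fintype.card K - 1) ^ k := by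
  rw [C2, Finset.card_product, card_nz, card_nz]

theorem card_CT : (CT K k).card ≤ (C1 K k).card + (C0 K k).card + (C2 K k).card := by
  refine (Finset.card_le_card (?_ : CT K k ⊆ (C1 K k ∪ C0 K k) ∪ C2 K k)).trans
    ((Finset.card_union_le _ _).trans (Nat.add_le_add_right (Finset.card_union_le _ _) _))
  rintro ⟨x, d⟩ h
  simp only [CT, mem_filter, mem_univ, true_and] at h
  simp only [mem_union, C1, C0, C2, mem_product, mem_filter, mem_univ, true_and]
  by_cases h1 : ∀ m, x m ≠ 0
  · by_cases h2 : ∀ l, d l ≠ 0
    · exact Or.inr ⟨h1, h2⟩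
    · push Not at h2
      exact Or.inl (Or.inl ⟨h1, h2⟩)
  · have h2 := h.resolve_left h1
    push Not at h1
    exact Or.inl (Or.inr ⟨h1, h2⟩)

end Classes

section Main

variable {K : Type} [Field K] [Fintype K] [DecidableEq K] {n k : ℕ}
variable (S : Fin n → Fin n → Prop) [∀ i j, Decidable (S i j)]

/-- the chains whose matrices are invertible, where the cells outside of `S` are cut -/
def good : Finset (Fin n × Fin n → Cfg K k) :=
  univ.filter fun c => (∀ s : Fin n × Fin n, ¬ S s.1 s.2 → (c s).1 0 = 0) ∧ (mat c).det ≠ 0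

/-- the chains which belong to a permutation -/
def Gs (σ : Equiv.Perm (Fin n)) : Finset (Fin n × Fin n → Cfg K k) :=
  Fintype.piFinset fun s : Fin n × Fin n =>
    if s.2 = σ s.1 then C1 K k else if S s.1 s.2 then C0 K k else C0' K k

/-- the chains with no zero in the chain of a given cell -/
def Bs (s₀ : Fin n × Fin n) : Finset (Fin n × Fin n → Cfg K k) :=
  Fintype.piFinset fun s : Fin n × Fin n =>
    if s = s₀ then C2 K k else if S s.1 s.2 then CT K k else C0' K k

/-- the number of cells in `S` -/
def nS : ℕ := (univ.filter fun s : Fin n × Fin n => S s.1 s.2).card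

/-- the permutations in `S` -/
def perms : Finset (Equiv.Perm (Fin n)) := univ.filter fun σ => ∀ i, S i (σ i)

omit [Field K] [Fintype K] [DecidableEq K] in
theorem prod3 (p q : Fin n × Fin n → Prop) [DecidablePred p] [DecidablePred q] (x y z : ℕ)
    (hpq : ∀ s, p s → q s) :
    ∏ s : Fin n × Fin n, (if p s then x else if q s then y else z) =
      x ^ (univ.filter p).card * y ^ ((univ.filter q).card - (univ.filter p).card) *
        z ^ (n * n - (univ.filter q).card) := by
  rw [Finset.prod_ite, Finset.prod_const, Finset.prod_ite, Finset.prod_const, Finset.prod_const,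
    mul_assoc]
  have h1 : (univ.filter p).card ≤ (univ.filter q).card :=
    Finset.card_le_card fun s hs => by
      rw [Finset.mem_filter] at hs ⊢
      exact ⟨hs.1, hpq s hs.2⟩
  have h2 : (((univ.filter fun s => ¬ p s).filter q)).card =
      (univ.filter q).card - (univ.filter p).card := by
    have h3 : (univ.filter fun s => ¬ p s).filter q = (univ.filter q) \ (univ.filter p) := by
      ext s
      simp only [mem_filter, mem_univ, true_and, mem_sdiff]
      tauto
    rw [h3, Finset.card_sdiff_of_subset]
    intro s hs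
    rw [Finset.mem_filter] at hs ⊢
    exact ⟨hs.1, hpq s hs.2⟩
  have h4 : (((univ.filter fun s => ¬ p s).filter fun s => ¬ q s)).card =
      n * n - (univ.filter q).card := by
    have h3 : ((univ.filter fun s => ¬ p s).filter fun s => ¬ q s) = (univ.filter q)ᶜ := by
      ext s
      simp only [mem_filter, mem_univ, true_and, mem_compl]
      constructor
      · exact fun h => h.2
      · exact fun h => ⟨fun h' => h (hpq s h'), h⟩
    rw [h3, Finset.card_compl, Fintype.card_prod, Fintype.card_fin]
  rw [h2, h4]

theorem card_graph (σ : Equiv.Perm (Fin n)) :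
    (univ.filter fun s : Fin n × Fin n => s.2 = σ s.1).card = n := by
  have h : (univ.filter fun s : Fin n × Fin n => s.2 = σ s.1) =
      univ.image (fun i : Fin n => (i, σ i)) := by
    ext s
    simp only [mem_filter, mem_univ, true_and, mem_image]
    constructor
    · intro h
      exact ⟨s.1, Prod.ext rfl h.symm⟩
    · rintro ⟨i, rfl⟩
      rfl
  rw [h, Finset.card_image_of_injective _ (fun i j h => (Prod.ext_iff.1 h).1), Finset.card_univ,
    Fintype.card_fin]

theorem card_Gs {σ : Equiv.Perm (Fin n)} (hσ : ∀ i, S i (σ i)) :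
    (Gs (K := K) (k := k) S σ).card = (C1 K k).card ^ n * (C0 K k).card ^ (nS S - n) *
      (C0' K k).card ^ (n * n - nS S) := by
  rw [Gs, Fintype.card_piFinset]
  have h1 : ∀ s : Fin n × Fin n,
      (if s.2 = σ s.1 then C1 K k else if S s.1 s.2 then C0 K k else C0' K k).card =
      if s.2 = σ s.1 then (C1 K k).card else if S s.1 s.2 then (C0 K k).card
        else (C0' K k).card := by
    intro s
    split_ifs <;> rfl
  rw [Finset.prod_congr rfl (fun s _ => h1 s), prod3, card_graph]
  · rfl
  · intro s hs
    have := hσ s.1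
    rwa [← hs] at this

theorem card_Bs {s₀ : Fin n × Fin n} (hs : S s₀.1 s₀.2) :
    (Bs (K := K) (k := k) S s₀).card = (C2 K k).card * (CT K k).card ^ (nS S - 1) *
      (C0' K k).card ^ (n * n - nS S) := by
  rw [Bs, Fintype.card_piFinset]
  have h1 : ∀ s : Fin n × Fin n,
      (if s = s₀ then C2 K k else if S s.1 s.2 then CT K k else C0' K k).card =
      if s = s₀ then (C2 K k).card else if S s.1 s.2 then (CT K k).card
        else (C0' K k).card := by
    intro s
    split_ifs <;> rfl
  rw [Finset.prod_congr rfl (fun s _ => h1 s), prod3]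
  · have h2 : (univ.filter fun s : Fin n × Fin n => s = s₀).card = 1 := by
      rw [Finset.filter_eq' univ s₀, if_pos (Finset.mem_univ _), Finset.card_singleton]
    rw [h2, pow_one]
    rfl
  · rintro s rfl
    exact hs

theorem Gs_sub_good (hk : 0 < k) {σ : Equiv.Perm (Fin n)} (hσ : ∀ i, S i (σ i)) :
    Gs (K := K) (k := k) S σ ⊆ good S := by
  intro c hc
  rw [Gs, Fintype.mem_piFinset] at hc
  rw [good, mem_filter]
  have h1 : ∀ s : Fin n × Fin n, s.2 = σ s.1 → (∀ m, (c s).1 m ≠ 0) ∧ ∃ l, (c s).2 l = 0 := by
    intro s hs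
    have h := hc s
    rw [if_pos hs] at h
    simpa [C1] using h
  have h0 : ∀ s : Fin n × Fin n, s.2 ≠ σ s.1 → (∃ m, (c s).1 m = 0) ∧ ∀ l, (c s).2 l ≠ 0 := by
    intro s hs
    have h := hc s
    rw [if_neg hs] at h
    split_ifs at h
    · simpa [C0] using h
    · simp only [C0', mem_product, mem_filter, mem_univ, true_and] at h
      exact ⟨⟨0, h.1⟩, h.2⟩
  refine ⟨Finset.mem_univ _, ?_, det_ne_zero hk c σ h1 h0⟩
  intro s hs
  have hs' : s.2 ≠ σ s.1 := by
    intro h
    apply hs
    rw [h]
    exact hσ _
  have h := hc s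
  rw [if_neg hs', if_neg hs] at h
  simp only [C0', mem_product, mem_filter, mem_univ, true_and] at h
  exact h.1

theorem Gs_disjoint {σ τ : Equiv.Perm (Fin n)} (h : σ ≠ τ) :
    Disjoint (Gs (K := K) (k := k) S σ) (Gs S τ) := by
  rw [Finset.disjoint_left]
  intro c hc hc'
  rw [Gs, Fintype.mem_piFinset] at hc hc'
  apply h
  ext1 i
  by_contra hne
  have h1 := hc (i, σ i)
  have h2 := hc' (i, σ i)
  rw [if_pos rfl] at h1
  rw [if_neg hne] at h2
  simp only [C1, mem_product, mem_filter, mem_univ, true_and] at h1
  split_ifs at h2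
  · simp only [C0, mem_product, mem_filter, mem_univ, true_and] at h2
    obtain ⟨m, hm⟩ := h2.1
    exact h1.1 m hm
  · simp only [C0', mem_product, mem_filter, mem_univ, true_and] at h2
    exact h1.1 0 h2.1

theorem good_sub (hk : 0 < k) : good (K := K) (k := k) S ⊆
    (perms S).biUnion (fun σ => Gs S σ) ∪
      (univ.filter fun s : Fin n × Fin n => S s.1 s.2).biUnion (fun s => Bs S s) := by
  intro c hc
  rw [good, mem_filter] at hc
  obtain ⟨_, hcut, hdet⟩ := hc
  obtain ⟨σ, hσ⟩ := perm_of_det hk c hdet
  have hS : ∀ s : Fin n × Fin n, (c s).1 0 ≠ 0 → S s.1 s.2 := fun s h => by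
    by_contra h'
    exact h (hcut s h')
  have hcT : ∀ s : Fin n × Fin n, c s ∈ if S s.1 s.2 then CT K k else C0' K k := by
    intro s
    by_cases hs : s.2 = σ s.1
    · rw [if_pos (hS s ((hσ s).1 hs 0))]
      simp only [CT, mem_filter, mem_univ, true_and]
      exact Or.inl ((hσ s).1 hs)
    · split_ifs with h1
      · simp only [CT, mem_filter, mem_univ, true_and]
        exact Or.inr ((hσ s).2 hs)
      · simp only [C0', mem_product, mem_filter, mem_univ, true_and]
        exact ⟨hcut s h1, (hσ s).2 hs⟩
  rw [mem_union, mem_biUnion, mem_biUnion]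
  by_cases hb : ∃ s : Fin n × Fin n, (∀ m, (c s).1 m ≠ 0) ∧ ∀ l, (c s).2 l ≠ 0
  · obtain ⟨s₀, h1, h2⟩ := hb
    right
    refine ⟨s₀, by rw [mem_filter]; exact ⟨mem_univ _, hS s₀ (h1 0)⟩, ?_⟩
    rw [Bs, Fintype.mem_piFinset]
    intro s
    by_cases hs : s = s₀
    · rw [if_pos hs, hs]
      simp only [C2, mem_product, mem_filter, mem_univ, true_and]
      exact ⟨h1, h2⟩
    · rw [if_neg hs]
      exact hcT s
  · left
    push Not at hb
    refine ⟨σ, ?_, ?_⟩
    · rw [perms, mem_filter]
      exact ⟨mem_univ _, fun i => hS (i, σ i) ((hσ (i, σ i)).1 rfl 0)⟩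
    · rw [Gs, Fintype.mem_piFinset]
      intro s
      by_cases hs : s.2 = σ s.1
      · rw [if_pos hs]
        simp only [C1, mem_product, mem_filter, mem_univ, true_and]
        exact ⟨(hσ s).1 hs, hb s ((hσ s).1 hs)⟩
      · rw [if_neg hs]
        have h3 := (hσ s).2 hs
        split_ifs with h4
        · simp only [C0, mem_product, mem_filter, mem_univ, true_and]
          refine ⟨?_, h3⟩
          by_contra h5
          push Not at h5
          obtain ⟨l, hl⟩ := hb s h5
          exact h3 l hl
        · simp only [C0', mem_product, mem_filter, mem_univ, true_and]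
          exact ⟨hcut s h4, h3⟩

/-- the weight of a permutation -/
def wt (K : Type) [Field K] [Fintype K] [DecidableEq K] (n k q : ℕ) : ℕ :=
  (C1 K k).card ^ n * (C0 K k).card ^ (q - n) * (C0' K k).card ^ (n * n - q)

theorem lower (hk : 0 < k) :
    (perms S).card * wt K n k (nS S) ≤ (good (K := K) (k := k) S).card := by
  have h1 : ((perms S).biUnion (fun σ => Gs (K := K) (k := k) S σ)).card =
      (perms S).card * wt K n k (nS S) := by
    rw [Finset.card_biUnion (fun σ _ τ _ h => Gs_disjoint S h), Finset.sum_const_nat]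
    intro σ hσ
    rw [perms, mem_filter] at hσ
    exact card_Gs S hσ.2
  rw [← h1]
  refine Finset.card_le_card ?_
  intro c hc
  rw [mem_biUnion] at hc
  obtain ⟨σ, hσ, hc⟩ := hc
  rw [perms, mem_filter] at hσ
  exact Gs_sub_good S hk hσ.2 hc

theorem upper (hk : 0 < k) :
    (good (K := K) (k := k) S).card ≤ (perms S).card * wt K n k (nS S) +
      nS S * ((C2 K k).card * (CT K k).card ^ (nS S - 1) * (C0' K k).card ^ (n * n - nS S)) := by
  refine (Finset.card_le_card (good_sub S hk)).trans ((Finset.card_union_le _ _).trans ?_)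
  refine Nat.add_le_add ?_ ?_
  · refine Finset.card_biUnion_le.trans (le_of_eq ?_)
    rw [Finset.sum_const_nat]
    intro σ hσ
    rw [perms, mem_filter] at hσ
    exact card_Gs S hσ.2
  · refine Finset.card_biUnion_le.trans (le_of_eq ?_)
    rw [Finset.sum_const_nat]
    · rfl
    · intro s hs
      rw [mem_filter] at hs
      exact card_Bs S hs.2

end Main

end Pool.Agent.TH925.DP
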