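import Pool.Agent.TH925.DP.Mem
import Pool.Agent.TH925.SI.PP

/-!
# `PP = NP ∪ coNP` and the numbers of invertible matrices with prescribed zeros
-/

set_option autoImplicit false

namespace Pool.Agent.NPC.TH925DP

open Pool.Agent.NPC.Cnt Pool.Agent.NPC.Med Pool.Agent.NPC.G276 Pool.Agent.NPC.TH925SI
open Pool.Agent.TH925.DP Pool.Agent.NPC.H549Convex

section Dec

variable {β : Type} [TEnc β] [TDec β] {f : β → ℕ}

theorem gt_pp' (hf : CountP f) : InPPc (lang fun x : β × ℕ => x.2 < f x.1) :=
  inPP_lt (CountP.ofPoly (Poly.snd Poly.id)) (hf.comp (Poly.fst Poly.id))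

/-- The graph of the function is in `NP` if the language of the strict lower bounds is in
`NP ∩ coNP`. -/
theorem graph_of_dec' (h1 : InNP (lang fun x : β × ℕ => x.2 < f x.1))
    (h2 : InCoNP (lang fun x : β × ℕ => x.2 < f x.1)) :
    InNP (lang fun x : β × ℕ => f x.1 = x.2) := by
  have h3 : InNPP (fun x : β × ℕ => x.2 < f x.1) := h1
  have h4 : InNPP (fun x : β × ℕ =>
      bits x ∈ (lang fun x : β × ℕ => x.2 < f x.1)ᶜ) := inNPP_typed h2
  have h5 : InNPP (fun x : β × ℕ =>
      ∀ c ∈ (bif decide (x.2 = 0) then [] else [x.2 - 1] : List ℕ), c < f x.1) := by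
    refine InNPP.forall_mem (Q := fun y : (β × ℕ) × ℕ => y.2 < f y.1.1)
      (l := fun x : β × ℕ => bif decide (x.2 = 0) then [] else [x.2 - 1]) ?_ ?_
    · exact InNPP.comp (f := fun y : (β × ℕ) × ℕ => (y.1.1, y.2)) h3
        (Poly.pair (Poly.fst (Poly.fst Poly.id)) (Poly.snd Poly.id))
    · exact Poly.cond (Poly.decide_eq (Poly.snd Poly.id) (Poly.const 0)) (Poly.const [])
        (Poly.cons (Poly.sub (Poly.snd Poly.id) (Poly.const 1)) (Poly.const []))
  have h6 := InNPP.and h4 h5
  refine cast (congrArg InNPP ?_) h6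
  funext x
  apply propext
  rw [Set.mem_compl_iff, bits_mem_lang, not_lt]
  constructor
  · rintro ⟨h7, h8⟩
    by_cases h0 : x.2 = 0
    · omega
    · rw [decide_eq_false h0, cond_false] at h8
      have := h8 (x.2 - 1) (by simp)
      omega
  · intro h7
    refine ⟨h7.le, ?_⟩
    by_cases h0 : x.2 = 0
    · rw [decide_eq_true h0, cond_true]
      simp
    · rw [decide_eq_false h0, cond_false]
      intro c hc
      rw [List.mem_singleton] at hc
      omega

end Dec

/-- If a language in `NP` decides whether the number of invertible matrices is `k`, then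
`PP ⊆ NP`. -/
theorem np_of_inv (p : ℕ) [Fact p.Prime] {A : Set (List Bool)} (hA : InNP A)
    (h : ∀ (B : List (List Bool)) (k : ℕ), bits (B, k) ∈ A ↔ invCount p B = k)
    {L : Set (List Bool)} (hL : InPPc L) : InNP L := by
  refine np_of_graph (β := List (List Bool)) (qsD_poly p) (postD_poly p) (F := invCount p)
    (postD_correct p) (Polynomial.C p * (Polynomial.X * Polynomial.X) + Polynomial.C 1) ?_
    (G := fun x : List (List Bool) × ℕ => bits x ∈ A) (inNPP_typed hA) (fun φ q _ k => h q k) hL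
  intro B
  refine (size_inv p B).trans ?_
  have h5 := (length_lt_sz B).le
  simp only [Polynomial.eval_add, Polynomial.eval_mul, Polynomial.eval_X, Polynomial.eval_C]
  exact Nat.add_le_add_right (Nat.mul_le_mul_left _ (Nat.mul_le_mul h5 h5)) _

theorem main (p : ℕ) [Fact p.Prime] :
    InPPc (lang fun x : List (List Bool) × ℕ => x.2 < invCount p x.1) ∧
    ((∀ L : Set (List Bool), InPPc L ↔ InNP L ∨ InCoNP L) ↔
      InNP (lang fun x : List (List Bool) × ℕ => x.2 < invCount p x.1) ∧
      InCoNP (lang fun x : List (List Bool) × ℕ => x.2 < invCount p x.1)) ∧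
    ((∀ L : Set (List Bool), InPPc L ↔ InNP L ∨ InCoNP L) ↔
      ∃ A : Set (List Bool), InNP A ∧ ∀ (B : List (List Bool)) (k : ℕ),
        bits (B, k) ∈ A ↔ invCount p B = k) := by
  rw [pp_eq_iff]
  have hpp := gt_pp' (countP_inv p)
  have h2 : (InNP (lang fun x : List (List Bool) × ℕ => x.2 < invCount p x.1) ∧
      InCoNP (lang fun x : List (List Bool) × ℕ => x.2 < invCount p x.1)) →
      ∃ A : Set (List Bool), InNP A ∧ ∀ (B : List (List Bool)) (k : ℕ),
        bits (B, k) ∈ A ↔ invCount p B = k := by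
    rintro ⟨h3, h4⟩
    exact ⟨_, graph_of_dec' h3 h4, fun B k => bits_mem_lang⟩
  have h1 : (∀ L : Set (List Bool), InPPc L → InNP L) →
      InNP (lang fun x : List (List Bool) × ℕ => x.2 < invCount p x.1) ∧
      InCoNP (lang fun x : List (List Bool) × ℕ => x.2 < invCount p x.1) :=
    fun h => ⟨h _ hpp, h _ (compl_pp hpp)⟩
  have h3 : (∃ A : Set (List Bool), InNP A ∧ ∀ (B : List (List Bool)) (k : ℕ),
        bits (B, k) ∈ A ↔ invCount p B = k) →
      ∀ L : Set (List Bool), InPPc L → InNP L := by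
    rintro ⟨A, hA, h⟩ L hL
    exact np_of_inv p hA h hL
  exact ⟨hpp, ⟨h1, fun h => h3 (h2 h)⟩, ⟨fun h => h2 (h1 h), h3⟩⟩

end Pool.Agent.NPC.TH925DP
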