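import Pool.Agent.TH925.DP.Red
import Pool.Agent.H276R3.Hard

/-!
# The number of invertible matrices with prescribed zeros is in `#P`
-/

set_option autoImplicit false

namespace Pool.Agent.NPC.TH925DP

open Pool.Agent.NPC.Cnt Pool.Agent.TH925.DP Pool.Agent.NPC.G276 Pool.Agent.NPC.Med
open Pool.Agent.H549R2.Convex Pool.Agent.NPC.H549Convex

/-- the entry `(i, j)` of a table of numbers -/
def gt (X : List (List ℕ)) (i j : ℕ) : ℕ := (X.getD i []).getD j 0

/-- the test for tables with `D` rows and columns of numbers less than `p` -/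
def isTab (p D : ℕ) (X : List (List ℕ)) : Bool :=
  decide (X.length = D) && X.all (fun r => decide (r.length = D) && r.all (fun v => decide (v < p)))

section Lists

variable {p D : ℕ}

/-- the table of a matrix -/
def toL (M : Matrix (Fin D) (Fin D) (ZMod p)) : List (List ℕ) :=
  List.ofFn fun i => List.ofFn fun j => (M i j).val

/-- the matrix of a table -/
def ofL (p D : ℕ) (X : List (List ℕ)) : Matrix (Fin D) (Fin D) (ZMod p) :=
  Matrix.of fun i j => (gt X i.val j.val : ZMod p)

theorem ofL_apply (X : List (List ℕ)) (i j : Fin D) :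
    ofL p D X i j = (gt X i.val j.val : ZMod p) := rfl

theorem gt_toL (M : Matrix (Fin D) (Fin D) (ZMod p)) (i j : Fin D) :
    gt (toL M) i.val j.val = (M i j).val := by
  have h1 : (toL M).getD i.val [] = List.ofFn fun j => (M i j).val := by
    rw [toL, List.getD_eq_getElem _ _ (by simp)]
    simp
  rw [gt, h1, List.getD_eq_getElem _ _ (by simp)]
  simp

theorem isTab_iff (X : List (List ℕ)) : isTab p D X = true ↔
    X.length = D ∧ ∀ r ∈ X, r.length = D ∧ ∀ v ∈ r, v < p := by
  simp [isTab]

theorem isTab_toL [NeZero p] (M : Matrix (Fin D) (Fin D) (ZMod p)) :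
    isTab p D (toL M) = true := by
  rw [isTab_iff]
  refine ⟨by simp [toL], ?_⟩
  intro r hr
  rw [toL, List.mem_ofFn] at hr
  obtain ⟨i, rfl⟩ := hr
  refine ⟨by simp, ?_⟩
  intro v hv
  rw [List.mem_ofFn] at hv
  obtain ⟨j, rfl⟩ := hv
  exact ZMod.val_lt _

theorem toL_ofL {X : List (List ℕ)} (hX : isTab p D X = true) : toL (ofL p D X) = X := by
  rw [isTab_iff] at hX
  obtain ⟨h1, h2⟩ := hX
  apply List.ext_getElem
  · simp [toL, h1]
  · intro i hi hi'
    have hr := h2 _ (List.getElem_mem hi')
    simp only [toL, List.getElem_ofFn]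
    apply List.ext_getElem
    · rw [List.length_ofFn, hr.1]
    · intro j hj hj'
      simp only [List.getElem_ofFn, ofL_apply]
      have h3 : gt X i j = X[i][j] := by
        rw [gt, List.getD_eq_getElem _ _ hi', List.getD_eq_getElem _ _ hj']
      rw [h3]
      exact ZMod.val_natCast_of_lt (hr.2 _ (List.getElem_mem hj'))

end Lists

/-- the product of two tables modulo `p` -/
def prodE (p : ℕ) (X Y : List (List ℕ)) (D i j : ℕ) : ℕ :=
  ((List.range D).map fun l => gt X i l * gt Y l j).sum % p

/-- the certificates: a matrix and its inverse -/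
def certD (p : ℕ) (B : LL) (w : List (List ℕ) × List (List ℕ)) : Bool :=
  isTab p B.length w.1 && (isTab p B.length w.2 &&
    ((List.range B.length).all fun i => (List.range B.length).all fun j =>
      (bit B i j || decide (gt w.1 i j = 0)) &&
        decide (prodE p w.1 w.2 B.length i j = bif decide (i = j) then 1 else 0)))

theorem certD_iff (p : ℕ) (B : LL) (w : List (List ℕ) × List (List ℕ)) :
    certD p B w = true ↔ isTab p B.length w.1 = true ∧ isTab p B.length w.2 = true ∧
      ∀ i j : Fin B.length, (bit B i.val j.val = false → gt w.1 i.val j.val = 0) ∧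
        prodE p w.1 w.2 B.length i.val j.val = if i = j then 1 else 0 := by
  simp only [certD, Bool.and_eq_true, List.all_eq_true, List.mem_range, Bool.or_eq_true,
    decide_eq_true_eq]
  refine and_congr Iff.rfl (and_congr Iff.rfl ⟨fun h i j => ?_, fun h i hi j hj => ?_⟩)
  · obtain ⟨h1, h2⟩ := h i.val i.isLt j.val j.isLt
    refine ⟨fun h3 => ?_, ?_⟩
    · rcases h1 with h1 | h1
      · rw [h3] at h1
        exact absurd h1 (by simp)
      · exact h1
    · rw [h2]
      by_cases h4 : i = j
      · rw [if_pos h4, h4]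
        simp
      · rw [if_neg h4, decide_eq_false (fun h => h4 (Fin.ext h))]
        rfl
  · obtain ⟨h1, h2⟩ := h ⟨i, hi⟩ ⟨j, hj⟩
    simp only at h1 h2
    refine ⟨?_, ?_⟩
    · cases h3 : bit B i j with
      | true => exact Or.inl rfl
      | false => exact Or.inr (h1 h3)
    · rw [h2]
      by_cases h4 : i = j
      · rw [if_pos (Fin.ext h4), decide_eq_true h4]
        rfl
      · rw [if_neg (fun h => h4 (congrArg Fin.val h)), decide_eq_false h4]
        rfl

theorem prodE_cast (p : ℕ) (X Y : List (List ℕ)) (D : ℕ) (i j : Fin D) :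
    ((prodE p X Y D i.val j.val : ℕ) : ZMod p) = (ofL p D X * ofL p D Y) i j := by
  rw [prodE, ZMod.natCast_mod, sum_map_range D (fun l => gt X i.val l * gt Y l j.val),
    Matrix.mul_apply]
  push_cast
  rfl

theorem ofL_toL (p D : ℕ) [NeZero p] (M : Matrix (Fin D) (Fin D) (ZMod p)) :
    ofL p D (toL M) = M := by
  ext i j
  rw [ofL_apply, gt_toL, ZMod.natCast_zmod_val]

theorem card_cert (p : ℕ) [hp : Fact p.Prime] (B : LL) :
    Nat.card {w : List (List ℕ) × List (List ℕ) // certD p B w = true} = invCount p B := by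
  have hp1 : 1 < p := hp.out.one_lt
  have : NeZero p := ⟨hp.out.ne_zero⟩
  symm
  unfold invCount
  refine Nat.card_congr (Equiv.ofBijective (fun X => ⟨(toL X.1, toL X.1⁻¹), ?_⟩) ⟨?_, ?_⟩)
  · rw [certD_iff]
    refine ⟨isTab_toL _, isTab_toL _, fun i j => ⟨fun h => ?_, ?_⟩⟩
    · simp only
      rw [gt_toL, X.2.1 i j h, ZMod.val_zero]
    · have h1 := prodE_cast p (toL X.1) (toL X.1⁻¹) B.length i j
      have h0 : X.1 * X.1⁻¹ = 1 :=
        Matrix.mul_nonsing_inv _ ((Matrix.isUnit_iff_isUnit_det _).1 X.2.2)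
      rw [ofL_toL, ofL_toL, h0, Matrix.one_apply] at h1
      have h2 : prodE p (toL X.1) (toL X.1⁻¹) B.length i.val j.val < p := Nat.mod_lt _ (by omega)
      have h3 : ((if i = j then 1 else 0 : ℕ) : ZMod p) = if i = j then 1 else 0 := by
        split_ifs <;> simp
      rw [← h3, ZMod.natCast_eq_natCast_iff', Nat.mod_eq_of_lt h2, Nat.mod_eq_of_lt
        (by split_ifs <;> omega)] at h1
      exact h1
  · intro X Y h
    simp only [Subtype.mk.injEq, Prod.mk.injEq] at h
    apply Subtype.ext
    rw [← ofL_toL p B.length X.1, ← ofL_toL p B.length Y.1, h.1]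
  · rintro ⟨⟨X, Y⟩, hw⟩
    rw [certD_iff] at hw
    obtain ⟨h1, h2, h3⟩ := hw
    simp only at h1 h2 h3
    have hXY : ofL p B.length X * ofL p B.length Y = 1 := by
      ext i j
      rw [← prodE_cast, (h3 i j).2, Matrix.one_apply]
      split_ifs <;> simp
    refine ⟨⟨ofL p B.length X, ?_, ?_⟩, ?_⟩
    · intro i j h
      rw [ofL_apply, (h3 i j).1 h, Nat.cast_zero]
    · exact IsUnit.of_mul_eq_one _ hXY
    · apply Subtype.ext
      simp only
      rw [Matrix.inv_eq_right_inv hXY, toL_ofL h1, toL_ofL h2]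

/-! ### polynomial time -/

theorem gt_poly {α : Type} [TEnc α] {X : α → List (List ℕ)} {i j : α → ℕ} (hX : Poly X)
    (hi : Poly i) (hj : Poly j) : Poly (fun x => gt (X x) (i x) (j x)) :=
  Poly.getD (Poly.getD hX hi (Poly.const [])) hj (Poly.const 0)

theorem isTab_poly (p : ℕ) {α : Type} [TEnc α] {D : α → ℕ} {X : α → List (List ℕ)}
    (hD : Poly D) (hX : Poly X) : Poly (fun x => isTab p (D x) (X x)) := by
  refine Poly.and (Poly.decide_eq (Poly.length hX) hD) ?_
  refine Poly.all (p := fun x r => decide (r.length = D x) && r.all (fun v => decide (v < p)))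
    hX ?_
  refine Poly.and (Poly.decide_eq (Poly.length (Poly.snd Poly.id)) (hD.comp (Poly.fst Poly.id))) ?_
  exact Poly.all (p := fun (_ : α × List ℕ) v => decide (v < p)) (Poly.snd Poly.id)
    (Poly.decide_lt (Poly.snd Poly.id) (Poly.const p))

theorem certD_poly (p : ℕ) :
    Poly (fun x : LL × (List (List ℕ) × List (List ℕ)) => certD p x.1 x.2) := by
  have hB : Poly (fun x : LL × (List (List ℕ) × List (List ℕ)) => x.1) := Poly.fst Poly.id
  have hD := Poly.length hB
  have hX : Poly (fun x : LL × (List (List ℕ) × List (List ℕ)) => x.2.1) :=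
    Poly.fst (Poly.snd Poly.id)
  have hY : Poly (fun x : LL × (List (List ℕ) × List (List ℕ)) => x.2.2) :=
    Poly.snd (Poly.snd Poly.id)
  refine Poly.and (isTab_poly p hD hX) (Poly.and (isTab_poly p hD hY) ?_)
  refine Poly.all (p := fun (x : LL × (List (List ℕ) × List (List ℕ))) i =>
    (List.range x.1.length).all fun j => (bit x.1 i j || decide (gt x.2.1 i j = 0)) &&
      decide (prodE p x.2.1 x.2.2 x.1.length i j = bif decide (i = j) then 1 else 0))
    (Poly.range_length hB) ?_
  refine Poly.all (p := fun (y : (LL × (List (List ℕ) × List (List ℕ))) × ℕ) j =>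
    (bit y.1.1 y.2 j || decide (gt y.1.2.1 y.2 j = 0)) &&
      decide (prodE p y.1.2.1 y.1.2.2 y.1.1.length y.2 j = bif decide (y.2 = j) then 1 else 0))
    (Poly.range_length (hB.comp (Poly.fst Poly.id))) ?_
  have e1 : Poly (fun z : ((LL × (List (List ℕ) × List (List ℕ))) × ℕ) × ℕ => z.1.1) :=
    Poly.fst (Poly.fst Poly.id)
  have ei : Poly (fun z : ((LL × (List (List ℕ) × List (List ℕ))) × ℕ) × ℕ => z.1.2) :=
    Poly.snd (Poly.fst Poly.id)
  have ej : Poly (fun z : ((LL × (List (List ℕ) × List (List ℕ))) × ℕ) × ℕ => z.2) :=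
    Poly.snd Poly.id
  refine Poly.and (Poly.or ?_ (Poly.decide_eq (gt_poly (hX.comp e1) ei ej) (Poly.const 0)))
    (Poly.decide_eq (Poly.mod ?_ (Poly.const p)) (Poly.cond (Poly.decide_eq ei ej) (Poly.const 1)
      (Poly.const 0)))
  · exact Poly.getD (Poly.getD (hB.comp e1) ei (Poly.const [])) ej (Poly.const false)
  · refine Poly.sum (Poly.map (F := fun (z : ((LL × (List (List ℕ) × List (List ℕ))) × ℕ) × ℕ) l =>
      gt z.1.1.2.1 z.1.2 l * gt z.1.1.2.2 l z.2) (Poly.range_length (hB.comp e1)) ?_)
    have f1 : Poly (fun u : (((LL × (List (List ℕ) × List (List ℕ))) × ℕ) × ℕ) × ℕ => u.1) :=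
      Poly.fst Poly.id
    exact Poly.mul (gt_poly ((hX.comp e1).comp f1) (ei.comp f1) (Poly.snd Poly.id))
      (gt_poly ((hY.comp e1).comp f1) (Poly.snd Poly.id) (ej.comp f1))

theorem sz_isTab {p D : ℕ} {X : List (List ℕ)} (h : isTab p D X = true) :
    sz X ≤ D * (D * (4 * p + 2) + 2) + 1 := by
  rw [isTab_iff] at h
  have h1 : ∀ r ∈ X, sz r ≤ D * (4 * p + 2) + 1 := by
    intro r hr
    obtain ⟨h2, h3⟩ := h.2 r hr
    have h4 : ∀ v ∈ r, sz v ≤ 4 * p + 1 := by
      intro v hv
      have h5 := sz_nat_le v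
      have h6 : v.size ≤ v := Nat.size_le.2 Nat.lt_two_pow_self
      have := h3 v hv
      omega
    have h5 := sz_le_length_mul r _ h4
    rw [h2] at h5
    exact h5
  have h2 := sz_le_length_mul X _ h1
  rw [h.1] at h2
  exact h2

theorem sharpP_inv (p : ℕ) [Fact p.Prime] : SharpP (strFn (invCount p)) := by
  have h := sharpP_typed (certD p) (certD_poly p)
    (Polynomial.C 2 * (Polynomial.X * (Polynomial.X * Polynomial.C (4 * p + 2) +
      Polynomial.C 2) + Polynomial.C 1) + Polynomial.C 1) ?_
  · have e : (fun B : LL => Nat.card {w : List (List ℕ) × List (List ℕ) // certD p B w = true}) =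
        invCount p := by
      funext B
      exact card_cert p B
    rw [e] at h
    exact h
  · intro B w hc
    obtain ⟨h1, h2, _⟩ := (certD_iff p B w).1 hc
    have h3 := sz_isTab h1
    have h4 := sz_isTab h2
    have h5 := (length_lt_sz B).le
    have h6 : B.length * (B.length * (4 * p + 2) + 2) ≤ sz B * (sz B * (4 * p + 2) + 2) :=
      Nat.mul_le_mul h5 (Nat.add_le_add_right (Nat.mul_le_mul_right _ h5) _)
    obtain ⟨X, Y⟩ := w
    rw [sz_pair]
    simp only [Polynomial.eval_add, Polynomial.eval_mul, Polynomial.eval_X, Polynomial.eval_C]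
    simp only at h3 h4
    omega

theorem countP_inv (p : ℕ) [Fact p.Prime] : CountP (invCount p) :=
  ((countP_of_sharpP (sharpP_inv p)).comp (g := fun l : LL => bits l) Med.poly_bits).congr
    fun l => strFn_bits (invCount p) l

/-! ### the values have polynomial length -/

theorem size_inv (p : ℕ) [hp : Fact p.Prime] (B : LL) :
    (invCount p B).size ≤ p * (B.length * B.length) + 1 := by
  have : NeZero p := ⟨hp.out.ne_zero⟩
  have h1 : invCount p B ≤ p ^ (B.length * B.length) := by
    have h2 : invCount p B ≤ Nat.card (Matrix (Fin B.length) (Fin B.length) (ZMod p)) :=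
      Nat.card_le_card_of_injective (fun X => X.1) Subtype.val_injective
    have h3 : Nat.card (Matrix (Fin B.length) (Fin B.length) (ZMod p)) =
        p ^ (B.length * B.length) := by
      rw [Nat.card_eq_fintype_card]
      show Fintype.card (Fin B.length → Fin B.length → ZMod p) = _
      rw [Fintype.card_fun, Fintype.card_fun, ZMod.card, Fintype.card_fin, ← pow_mul]
    rw [h3] at h2
    exact h2
  have h2 : p ^ (B.length * B.length) ≤ (2 ^ p) ^ (B.length * B.length) :=
    Nat.pow_le_pow_left (Nat.lt_two_pow_self).le _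
  rw [← pow_mul] at h2
  have h3 : 2 ^ (p * (B.length * B.length)) < 2 ^ (p * (B.length * B.length) + 1) :=
    Nat.pow_lt_pow_right (by norm_num) (by omega)
  rw [Nat.size_le]
  omega

end Pool.Agent.NPC.TH925DP
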