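import Pool.Agent.TH925.DP.Count

/-!
# The permanent from the number of invertible matrices
-/

set_option autoImplicit false

namespace Pool.Agent.TH925.DP

open Finset Matrix

/-- the length of the chains -/
def kk (q n : ℕ) : ℕ := (q - 1) * (4 * (n * n) + 2)

theorem bern' (a : ℕ) (ha : 1 ≤ a) : 2 * a ^ a ≤ (a + 1) ^ a := by
  have h0 : (0 : ℚ) < a := by exact_mod_cast ha
  have h1 := one_add_mul_le_pow (R := ℚ) (a := 1 / a) (by
    have : (0 : ℚ) < 1 / a := by positivity
    linarith) a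
  have h2 : (1 : ℚ) + a * (1 / a) = 2 := by
    field_simp
    norm_num
  rw [h2] at h1
  have h3 : (1 + 1 / (a : ℚ)) ^ a * a ^ a = (a + 1) ^ a := by
    rw [← mul_pow]
    congr 1
    field_simp
  have h4 : (2 : ℚ) * a ^ a ≤ (a + 1) ^ a := by
    rw [← h3]
    exact mul_le_mul_of_nonneg_right h1 (by positivity)
  exact_mod_cast h4

theorem big' (a n : ℕ) (ha : 1 ≤ a) :
    2 ^ (4 * (n * n) + 2) * a ^ (a * (4 * (n * n) + 2)) ≤ (a + 1) ^ (a * (4 * (n * n) + 2)) := by
  rw [pow_mul, pow_mul, ← mul_pow]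
  exact Nat.pow_le_pow_left (bern' a ha) _

theorem small (m N : ℕ) (hm : 1 ≤ m) (hN : m ≤ N) : m * 6 ^ (m - 1) + 1 < 2 ^ (4 * N + 2) := by
  have h1 : m ≤ 2 ^ m := Nat.lt_two_pow_self.le
  have h2 : 6 ^ (m - 1) ≤ 8 ^ m :=
    (Nat.pow_le_pow_left (by norm_num) _).trans (Nat.pow_le_pow_right (by norm_num) (by omega))
  have h3 : m * 6 ^ (m - 1) ≤ 16 ^ m := by
    calc m * 6 ^ (m - 1) ≤ 2 ^ m * 8 ^ m := Nat.mul_le_mul h1 h2
      _ = 16 ^ m := by rw [← mul_pow]; norm_num
  have h4 : (16 : ℕ) ^ m ≤ 16 ^ N := Nat.pow_le_pow_right (by norm_num) hN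
  have h5 : (2 : ℕ) ^ (4 * N + 2) = 16 ^ N * 4 := by
    rw [pow_add, pow_mul]
    norm_num
  have h6 : 1 ≤ 16 ^ N := Nat.one_le_pow _ _ (by norm_num)
  omega

/-- the numerical inequality -/
theorem ineq (a u v n m X1 X0 X2 XT : ℕ) (ha : 1 ≤ a) (hu : 1 ≤ u)
    (hv : 2 ^ (4 * (n * n) + 2) * u ≤ v) (hm : m ≤ n * n)
    (h1 : X1 = a * u * (v - u)) (h0 : X0 = ((a + 1) * v - a * u) * u) (h2 : X2 = a * u * u)
    (hT : XT ≤ X1 + X0 + X2) :
    m * (X2 * XT ^ (m - 1)) < X1 ^ n * X0 ^ (m - n) := by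
  have hE : 4 ≤ 2 ^ (4 * (n * n) + 2) := by
    rw [pow_add]
    have : 1 ≤ 2 ^ (4 * (n * n)) := Nat.one_le_pow _ _ (by norm_num)
    omega
  have hv2 : 4 * u ≤ v := le_trans (Nat.mul_le_mul_right _ hE) hv
  obtain ⟨w, rfl⟩ := Nat.exists_eq_add_of_le (show u ≤ v by omega)
  have hw : u ≤ w := by omega
  rw [Nat.add_sub_cancel_left] at h1
  have h0' : X0 = (a * w + (u + w)) * u := by
    rw [h0]
    congr 1
    have : (a + 1) * (u + w) = a * u + (a * w + (u + w)) := by ring
    rw [this, Nat.add_sub_cancel_left]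
  have hX1 : 1 ≤ X1 := by
    rw [h1]
    have h3 : 1 ≤ w := by omega
    exact Nat.mul_pos (Nat.mul_pos ha hu) h3
  have hX01 : X1 ≤ X0 := by
    rw [h1, h0']
    nlinarith [Nat.zero_le (u * u), Nat.zero_le (u * w)]
  have hXT : XT ≤ 6 * X1 := by
    refine hT.trans ?_
    rw [h0', h2, h1]
    have e1 : a * u * u ≤ a * u * w := Nat.mul_le_mul_left _ hw
    have e2 : u * u ≤ a * u * w := by
      calc u * u ≤ u * w := Nat.mul_le_mul_left _ hw
        _ ≤ a * u * w := by
          rw [mul_assoc]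
          exact Nat.le_mul_of_pos_left _ ha
    have e3 : w * u ≤ a * u * w := by
      rw [mul_comm w u, mul_assoc]
      exact Nat.le_mul_of_pos_left _ ha
    nlinarith
  have hpos : 0 < X1 ^ n * X0 ^ (m - n) := by
    have : 1 ≤ X0 := hX1.trans hX01
    positivity
  rcases Nat.eq_zero_or_pos m with rfl | hm1
  · simpa using hpos
  have hlast : X1 ^ m ≤ X1 ^ n * X0 ^ (m - n) := by
    rcases Nat.le_total n m with h | h
    · calc X1 ^ m = X1 ^ n * X1 ^ (m - n) := by rw [← pow_add]; congr 1; omega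
        _ ≤ _ := Nat.mul_le_mul_left _ (Nat.pow_le_pow_left hX01 _)
    · rw [Nat.sub_eq_zero_of_le h, pow_zero, mul_one]
      exact Nat.pow_le_pow_right hX1 h
  refine lt_of_lt_of_le ?_ hlast
  have h5 : m * 6 ^ (m - 1) * X2 < X1 := by
    have h6 := small m (n * n) hm1 hm
    have h7 : (m * 6 ^ (m - 1) + 1) * u < u + w := by
      refine lt_of_lt_of_le ?_ hv
      exact Nat.mul_lt_mul_of_pos_right h6 hu
    have h8 : m * 6 ^ (m - 1) * u < w := by
      rw [Nat.add_mul, one_mul] at h7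
      omega
    rw [h2, h1]
    calc m * 6 ^ (m - 1) * (a * u * u) = a * u * (m * 6 ^ (m - 1) * u) := by ring
      _ < a * u * w := Nat.mul_lt_mul_of_pos_left h8 (Nat.mul_pos ha hu)
  calc m * (X2 * XT ^ (m - 1)) ≤ m * (X2 * (6 * X1) ^ (m - 1)) :=
        Nat.mul_le_mul_left _ (Nat.mul_le_mul_left _ (Nat.pow_le_pow_left hXT _))
    _ = m * 6 ^ (m - 1) * X2 * X1 ^ (m - 1) := by rw [mul_pow]; ring
    _ < X1 * X1 ^ (m - 1) := Nat.mul_lt_mul_of_pos_right h5 (Nat.pow_pos hX1)
    _ = X1 ^ m := by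
        rw [← pow_succ']
        congr 1
        omega

section

variable {K : Type} [Field K] [Fintype K] [DecidableEq K] {n : ℕ}
variable (S : Fin n → Fin n → Prop) [∀ i j, Decidable (S i j)]

theorem nS_le : nS S ≤ n * n := by
  unfold nS
  refine (Finset.card_filter_le _ _).trans ?_
  rw [Finset.card_univ, Fintype.card_prod, Fintype.card_fin]

theorem kk_pos (K : Type) [Field K] [Fintype K] (n : ℕ) : 0 < kk (Fintype.card K) n := by
  have := Fintype.one_lt_card (α := K)
  unfold kk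
  have h1 : 0 < Fintype.card K - 1 := by omega
  positivity

/-- **The number of permutations in `S` from the number of invertible matrices.** -/
theorem count_div : (good (K := K) (k := kk (Fintype.card K) n) S).card /
    wt K n (kk (Fintype.card K) n) (nS S) = (perms S).card := by
  have hq := Fintype.one_lt_card (α := K)
  have hk := kk_pos K n
  obtain ⟨a, ha⟩ : ∃ a, Fintype.card K = a + 1 := ⟨Fintype.card K - 1, by omega⟩
  have ha1 : 1 ≤ a := by omega
  have h1 := lower (K := K) S hk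
  have h2 := upper (K := K) S hk
  have hR : nS S * ((C2 K (kk (Fintype.card K) n)).card *
      (CT K (kk (Fintype.card K) n)).card ^ (nS S - 1) *
      (C0' K (kk (Fintype.card K) n)).card ^ (n * n - nS S)) <
      wt K n (kk (Fintype.card K) n) (nS S) := by
    have h3 := ineq a (a ^ kk (Fintype.card K) n) ((a + 1) ^ kk (Fintype.card K) n) n (nS S)
      (C1 K (kk (Fintype.card K) n)).card (C0 K (kk (Fintype.card K) n)).card
      (C2 K (kk (Fintype.card K) n)).card (CT K (kk (Fintype.card K) n)).card ha1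
      (Nat.one_le_pow _ _ ha1) (by
        have h4 : kk (Fintype.card K) n = a * (4 * (n * n) + 2) := by
          unfold kk
          rw [ha, Nat.add_sub_cancel]
        rw [h4]
        exact big' a n ha1) (nS_le S) ?_ ?_ ?_ (card_CT K _)
    · have h5 : 0 < (C0' K (kk (Fintype.card K) n)).card ^ (n * n - nS S) := by
        rw [card_C0', ha, Nat.add_sub_cancel]
        positivity
      calc _ = nS S * ((C2 K (kk (Fintype.card K) n)).card *
          (CT K (kk (Fintype.card K) n)).card ^ (nS S - 1)) *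
          (C0' K (kk (Fintype.card K) n)).card ^ (n * n - nS S) := by ring
        _ < _ := Nat.mul_lt_mul_of_pos_right h3 h5
    · rw [card_C1, ha, Nat.add_sub_cancel, pow_succ']
    · rw [card_C0, ha, Nat.add_sub_cancel, pow_succ', pow_succ']
    · rw [card_C2, ha, Nat.add_sub_cancel, pow_succ']
  apply Nat.div_eq_of_lt_le
  · exact h1
  · rw [Nat.add_mul, one_mul]
    omega

end

end Pool.Agent.TH925.DP
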