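import Pool.Agent.TH925.DP.Table
import Pool.Agent.TH925.TP.Red

/-!
# Satisfying assignments from numbers of invertible matrices
-/

set_option autoImplicit false

namespace Pool.Agent.NPC.TH925DP

open Pool.Agent.H549R2.Convex Pool.Agent.H549R2.PM Pool.Agent.NPC.Cnt Pool.Agent.NPC.H549Convex
open Pool.Agent.NPC.H549PM Pool.Agent.TH925.DP
open Pool.Agent.NPC.TH925TP (poly_pow rF_pos)

section General

variable {α : Type} [TEnc α]

theorem kk_upoly (p : ℕ) {n : α → ℕ} (hn : UPoly n) : UPoly (fun a => kk p (n a)) :=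
  UPoly.mul (UPoly.const (p - 1)) (UPoly.add (UPoly.mul (UPoly.const 4) (UPoly.mul hn hn))
    (UPoly.const 2))

theorem supB_poly {A : α → LL} {n k a b : α → ℕ} (hA : Poly A) (hn : Poly n) (hk : Poly k)
    (ha : Poly a) (hb : Poly b) : Poly (fun x => supB (A x) (n x) (k x) (a x) (b x)) := by
  have hbn : Poly (fun x => b x - n x) := Poly.sub hb hn
  have han : Poly (fun x => a x - n x) := Poly.sub ha hn
  refine Poly.cond (Poly.decide_lt ha hn) ?_ ?_
  · refine Poly.and (Poly.decide_le hn hb) (Poly.and (Poly.decide_eq (Poly.mod hbn hk)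
      (Poly.const 0)) (Poly.and (Poly.decide_eq (Poly.div (Poly.div hbn hk) hn) ha) ?_))
    exact ent_poly.comp (Poly.pair hA (Poly.pair ha (Poly.mod (Poly.div hbn hk) hn)))
  · refine Poly.or (Poly.decide_eq hb ha) (Poly.or (Poly.and (Poly.decide_eq hb (Poly.succ ha))
      (Poly.decide_lt (Poly.succ (Poly.mod han hk)) hk)) (Poly.and (Poly.decide_eq
      (Poly.succ (Poly.mod han hk)) hk) (Poly.decide_eq hb (Poly.mod (Poly.div han hk) hn))))

theorem tab_poly {A : α → LL} {n k : α → ℕ} (hA : Poly A) (hn : UPoly n) (hk : UPoly k) :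
    Poly (fun x => tab (A x) (n x) (k x)) := by
  have hD : UPoly (fun x => n x + n x * n x * k x) :=
    UPoly.add hn (UPoly.mul (UPoly.mul hn hn) hk)
  refine Poly.map (F := fun x a => (List.range (n x + n x * n x * k x)).map fun b =>
    supB (A x) (n x) (k x) a b) hD.range ?_
  refine Poly.map (F := fun (y : α × ℕ) b => supB (A y.1) (n y.1) (k y.1) y.2 b)
    (hD.comp (Poly.fst Poly.id)).range ?_
  have h1 : Poly (fun z : (α × ℕ) × ℕ => z.1.1) := Poly.fst (Poly.fst Poly.id)
  exact supB_poly (hA.comp h1) (hn.toPoly.comp h1) (hk.toPoly.comp h1)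
    (Poly.snd (Poly.fst Poly.id)) (Poly.snd Poly.id)

theorem ones_poly {A : α → LL} {n : α → ℕ} (hA : Poly A) (hn : UPoly n) :
    Poly (fun x => ones (A x) (n x)) := by
  refine Poly.sum ?_
  refine Poly.map (F := fun x i => ((List.range (n x)).filter fun j => ent (A x) i j).length)
    hn.range ?_
  refine Poly.length ?_
  refine Poly.filter (p := fun (y : α × ℕ) j => ent (A y.1) y.2 j)
    (hn.comp (Poly.fst Poly.id)).range ?_
  exact ent_poly.comp (Poly.pair (hA.comp (Poly.fst (Poly.fst Poly.id)))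
    (Poly.pair (Poly.snd (Poly.fst Poly.id)) (Poly.snd Poly.id)))

theorem ones_le (A : LL) (n : ℕ) : ones A n ≤ n * n := by
  unfold ones
  have h1 : ∀ l : List ℕ, (l.map fun i => ((List.range n).filter fun j => ent A i j).length).sum ≤
      l.length * n := by
    intro l
    induction l with
    | nil => simp
    | cons a l ih =>
      rw [List.map_cons, List.sum_cons, List.length_cons, Nat.add_mul, one_mul]
      have h2 : ((List.range n).filter fun j => ent A a j).length ≤ n := by
        refine (List.length_filter_le _ _).trans ?_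
        rw [List.length_range]
      omega
  have h2 := h1 (List.range n)
  rwa [List.length_range] at h2

theorem wgt_poly (p : ℕ) {n k q : α → ℕ} (hn : UPoly n) (hk : UPoly k) (hq : UPoly q) :
    Poly (fun x => wgt p (n x) (k x) (q x)) := by
  have hk1 : UPoly (fun x => k x + 1) := UPoly.add hk (UPoly.const 1)
  have hqn : UPoly (fun x => q x - n x) :=
    UPoly.of_le (Poly.sub hq.toPoly hn.toPoly) hq (fun _ => Nat.sub_le _ _)
  have hnn : UPoly (fun x => n x * n x - q x) :=
    UPoly.of_le (Poly.sub (UPoly.mul hn hn).toPoly hq.toPoly) (UPoly.mul hn hn)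
      (fun _ => Nat.sub_le _ _)
  have a1 : Poly (fun x => (p - 1) ^ (k x + 1)) := poly_pow (Poly.const (p - 1)) hk1
  have a0 : Poly (fun x => (p - 1) ^ k x) := poly_pow (Poly.const (p - 1)) hk
  have b1 : Poly (fun x => p ^ (k x + 1)) := poly_pow (Poly.const p) hk1
  have b0 : Poly (fun x => p ^ k x) := poly_pow (Poly.const p) hk
  exact Poly.mul (Poly.mul (poly_pow (Poly.mul a1 (Poly.sub b0 a0)) hn)
    (poly_pow (Poly.mul (Poly.sub b1 a1) a0) hqn)) (poly_pow (Poly.mul b0 a0) hnn)

end General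

/-- the query matrix -/
def qM (x : CNF ℕ × ℕ) : LL := MF x.1 (tF x)

/-- the queries -/
def qsD (p : ℕ) (φ : CNF ℕ) : List LL :=
  (List.range (qF φ + 1)).map (fun t => tab (qM (φ, t)) (rF φ) (kk p (rF φ)))

theorem qsD_poly (p : ℕ) : Poly (qsD p) := by
  have h1 : UPoly (fun x : CNF ℕ × ℕ => rF x.1) := rF_upoly.comp (Poly.fst Poly.id)
  exact Poly.map (F := fun (φ : CNF ℕ) t => tab (qM (φ, t)) (rF φ) (kk p (rF φ)))
    (UPoly.add qF_upoly (UPoly.const 1)).range (tab_poly (A := qM) MF_poly h1 (kk_upoly p h1))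

/-- the weight of a query -/
def qW (p : ℕ) (x : CNF ℕ × ℕ) : ℕ := wgt p (rF x.1) (kk p (rF x.1)) (ones (qM x) (rF x.1))

theorem qW_poly (p : ℕ) : Poly (qW p) := by
  have h1 : UPoly (fun x : CNF ℕ × ℕ => rF x.1) := rF_upoly.comp (Poly.fst Poly.id)
  exact wgt_poly p h1 (kk_upoly p h1) (UPoly.of_le (ones_poly (A := qM) MF_poly h1)
    (UPoly.mul h1 h1) (fun _ => ones_le _ _))

/-- the final computation -/
def postD (p : ℕ) (z : CNF ℕ × List ℕ) : ℕ :=
  alt (qF z.1) (fun t => z.2.getD t 0 / qW p (z.1, t) / (kF z.1).factorial) /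
    (2 ^ qF z.1 * (qF z.1).factorial)

theorem postD_poly (p : ℕ) : Poly (postD p) := by
  have hq : UPoly (fun p : CNF ℕ × List ℕ => qF p.1) := qF_upoly.comp (Poly.fst Poly.id)
  have hW : Poly (fun z : (CNF ℕ × List ℕ) × ℕ => qW p (z.1.1, z.2)) :=
    (qW_poly p).comp (Poly.pair (Poly.fst (Poly.fst Poly.id)) (Poly.snd Poly.id))
  have h1 : Poly (fun z : (CNF ℕ × List ℕ) × ℕ =>
      z.1.2.getD z.2 0 / qW p (z.1.1, z.2) / (kF z.1.1).factorial) :=
    Poly.div (Poly.div (Poly.getD (Poly.snd (Poly.fst Poly.id)) (Poly.snd Poly.id) (Poly.const 0))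
      hW) (upoly_fact (kF_upoly.comp (Poly.fst (Poly.fst Poly.id))))
  exact Poly.div (alt_poly (g := fun (z : CNF ℕ × List ℕ) t =>
    z.2.getD t 0 / qW p (z.1, t) / (kF z.1).factorial) hq h1) (Poly.mul (upoly_pow2 hq)
    (upoly_fact hq))

theorem postD_gen (p : ℕ) (φ : CNF ℕ) (ans : List ℕ)
    (h : ∀ t ≤ qF φ, ans.getD t 0 / qW p (φ, t) = F (MF φ t)) : postD p (φ, ans) = satCount φ := by
  have h1 : alt (qF φ) (fun t => ans.getD t 0 / qW p (φ, t) / (kF φ).factorial) =
      2 ^ qF φ * (qF φ).factorial * satCount φ := by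
    rw [alt_congr _ _ (fun t => F (MF φ t) / (kF φ).factorial)]
    · apply alt_eq
      have h2 := sat_eq φ
      push_cast
      push_cast at h2
      exact h2
    · intro t ht
      rw [h t ht]
  rw [postD]
  simp only
  rw [h1, Nat.mul_div_cancel_left _ (by positivity)]

theorem postD_correct (p : ℕ) [Fact p.Prime] (φ : CNF ℕ) :
    postD p (φ, (qsD p φ).map (invCount p)) = satCount φ := by
  refine postD_gen p φ _ fun t ht => ?_
  have hlen : (MF φ t).length = rF φ := MF_length φ t ht
  have hlq : t < ((qsD p φ).map (invCount p)).length := by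
    simp only [qsD, List.length_map, List.length_range]
    omega
  have hqM : qM (φ, t) = MF φ t := by
    rw [qM, tF]
    simp only
    rw [Nat.min_eq_left ht]
  rw [List.getD_eq_getElem _ _ hlq, List.getElem_map]
  have h3 : (qsD p φ)[t]'(by simpa using hlq) = tab (MF φ t) (rF φ) (kk p (rF φ)) := by
    simp only [qsD, List.getElem_map, List.getElem_range]
    rw [hqM]
  rw [h3, qW]
  simp only
  rw [hqM]
  exact invCount_div p _ (MF_square φ t ht) _ hlen

end Pool.Agent.NPC.TH925DP
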