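import Pool.Agent.TH925.DP.Num
import Pool.Agent.H549R2.PM7

/-!
# Invertible matrices with prescribed zeros, and the table with chains
-/

set_option autoImplicit false

namespace Pool.Agent.TH925.DP

open Finset Matrix Pool.Agent.H549R2.Convex

/-- the entry `(i, j)` of a table -/
def bit (B : List (List Bool)) (i j : ℕ) : Bool := (B.getD i []).getD j false

/-- The number of the invertible matrices over `ZMod p` which have zeros wherever the table `B` has
the entry `false`; the number of rows and columns is the number of rows of the table. -/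
noncomputable def invCount (p : ℕ) (B : List (List Bool)) : ℕ :=
  Nat.card {X : Matrix (Fin B.length) (Fin B.length) (ZMod p) //
    (∀ i j : Fin B.length, bit B i.val j.val = false → X i j = 0) ∧ IsUnit X}

section

variable {n k : ℕ}

/-- where the matrix with chains may have entries different from zero -/
def Sup (S : Fin n → Fin n → Prop) : Idx n k → Idx n k → Prop
  | .inl _, .inl _ => False
  | .inl i, .inr (s, l) => s.1 = i ∧ l.val = 0 ∧ S s.1 s.2
  | .inr (s, l), .inl j => s.2 = j ∧ l.val + 1 = k
  | .inr (s, l), .inr (s', l') => s = s' ∧ (l = l' ∨ l'.val = l.val + 1)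

variable {K : Type} [Field K]

/-- reading the chains -/
def rd (hk : 0 < k) (X : Matrix (Idx n k) (Idx n k) K) (s : Fin n × Fin n) : Cfg K k :=
  (fun m => Fin.cases (X (.inl s.1) (.inr (s, ⟨0, hk⟩)))
    (fun l => if h : l.val + 1 < k then X (.inr (s, l)) (.inr (s, ⟨l.val + 1, h⟩))
      else X (.inr (s, l)) (.inl s.2)) m,
    fun l => X (.inr (s, l)) (.inr (s, l)))

theorem rd_mat (hk : 0 < k) (c : Fin n × Fin n → Cfg K k) : rd hk (mat c) = c := by
  funext s
  refine Prod.ext ?_ ?_
  · funext m
    induction m using Fin.cases with
    | zero => simp [rd, mat]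
    | succ l =>
      simp only [rd, Fin.cases_succ]
      split_ifs with h
      · simp only [mat, if_true]
        rw [if_neg (by intro h2; have := congrArg Fin.val h2; simp at this)]
      · have : l.val + 1 = k := by have := l.isLt; omega
        simp [mat, this]
  · funext l
    simp [rd, mat]

theorem mat_rd (hk : 0 < k) (S : Fin n → Fin n → Prop) (X : Matrix (Idx n k) (Idx n k) K)
    (hX : ∀ a b, ¬ Sup S a b → X a b = 0) : mat (rd hk X) = X := by
  ext a b
  rcases a with i | ⟨s, l⟩ <;> rcases b with j | ⟨s', l'⟩
  · rw [hX _ _ (by simp [Sup])]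
    rfl
  · simp only [mat]
    split_ifs with h
    · have e1 : l' = ⟨0, hk⟩ := Fin.ext h.2
      rw [e1, ← h.1]
      rfl
    · rw [hX]
      simp only [Sup]
      tauto
  · simp only [mat]
    split_ifs with h
    · simp only [rd, Fin.cases_succ]
      rw [dif_neg (by omega), h.1]
    · rw [hX]
      simp only [Sup]
      tauto
  · simp only [mat]
    split_ifs with h1 h2 h3
    · subst h1 h2
      rfl
    · subst h1
      simp only [rd, Fin.cases_succ]
      have h4 : l.val + 1 < k := by have := l'.isLt; omega
      rw [dif_pos h4]
      congr 3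
      exact Fin.ext h3.symm
    · rw [hX]
      simp only [Sup]
      tauto
    · rw [hX]
      simp only [Sup]
      tauto

theorem mat_sup (S : Fin n → Fin n → Prop) (c : Fin n × Fin n → Cfg K k)
    (hc : ∀ s : Fin n × Fin n, ¬ S s.1 s.2 → (c s).1 0 = 0) (a b : Idx n k) (h : ¬ Sup S a b) :
    mat c a b = 0 := by
  rcases a with i | ⟨s, l⟩ <;> rcases b with j | ⟨s', l'⟩
  · rfl
  · simp only [mat]
    split_ifs with h1
    · apply hc
      intro h2
      apply h
      exact ⟨h1.1, h1.2, h2⟩
    · rfl
  · simp only [mat]
    rw [if_neg]
    exact h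
  · simp only [mat]
    split_ifs with h1 h2 h3
    · exact absurd ⟨h1, Or.inl h2⟩ h
    · exact absurd ⟨h1, Or.inr h3⟩ h
    · rfl
    · rfl

variable [Fintype K] [DecidableEq K]

theorem mem_good (S : Fin n → Fin n → Prop) [∀ i j, Decidable (S i j)]
    (c : Fin n × Fin n → Cfg K k) : c ∈ good (K := K) (k := k) S ↔
      (∀ s : Fin n × Fin n, ¬ S s.1 s.2 → (c s).1 0 = 0) ∧ (mat c).det ≠ 0 := by
  simp [good]

theorem card_sup (hk : 0 < k) (S : Fin n → Fin n → Prop) [∀ i j, Decidable (S i j)] :
    Nat.card {X : Matrix (Idx n k) (Idx n k) K // (∀ a b, ¬ Sup S a b → X a b = 0) ∧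
      X.det ≠ 0} = (good (K := K) (k := k) S).card := by
  have e0 : (good (K := K) (k := k) S).card =
      Nat.card {c // c ∈ good (K := K) (k := k) S} := by
    rw [Nat.card_eq_fintype_card, Fintype.card_coe]
  rw [e0]
  refine Nat.card_congr
    { toFun := fun X => ⟨rd hk X.1, ?_⟩
      invFun := fun c => ⟨mat c.1, ?_, ?_⟩
      left_inv := ?_
      right_inv := ?_ }
  · rw [mem_good]
    refine ⟨?_, by rw [mat_rd hk S X.1 X.2.1]; exact X.2.2⟩
    intro s hs
    show X.1 (.inl s.1) (.inr (s, ⟨0, hk⟩)) = 0
    apply X.2.1
    rintro ⟨_, _, h⟩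
    exact hs h
  · exact mat_sup S c.1 ((mem_good S c.1).1 c.2).1
  · exact ((mem_good S c.1).1 c.2).2
  · intro X
    exact Subtype.ext (mat_rd hk S X.1 X.2.1)
  · intro c
    exact Subtype.ext (rd_mat hk c.1)

end

/-! ### the table -/

/-- where the table with chains has the entry `true` -/
def supB (A : List (List Bool)) (n k a b : ℕ) : Bool :=
  bif decide (a < n) then (decide (n ≤ b) && (decide ((b - n) % k = 0) &&
    (decide ((b - n) / k / n = a) && ent A a ((b - n) / k % n))))
  else (decide (b = a) || ((decide (b = a + 1) && decide ((a - n) % k + 1 < k)) ||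
    (decide ((a - n) % k + 1 = k) && decide (b = (a - n) / k % n))))

/-- the table with chains of length `k` for a table with `n` rows -/
def tab (A : List (List Bool)) (n k : ℕ) : List (List Bool) :=
  (List.range (n + n * n * k)).map fun a =>
    (List.range (n + n * n * k)).map fun b => supB A n k a b

theorem tab_length (A : List (List Bool)) (n k : ℕ) : (tab A n k).length = n + n * n * k := by
  simp [tab]

theorem bit_tab (A : List (List Bool)) (n k a b : ℕ) (ha : a < n + n * n * k)
    (hb : b < n + n * n * k) : bit (tab A n k) a b = supB A n k a b := by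
  have h1 : (tab A n k).getD a [] =
      (List.range (n + n * n * k)).map fun b => supB A n k a b := by
    rw [tab, List.getD_eq_getElem _ _ (by simpa using ha)]
    simp only [List.getElem_map, List.getElem_range]
  rw [bit, h1, List.getD_eq_getElem _ _ (by simpa using hb)]
  simp only [List.getElem_map, List.getElem_range]

/-- the numbering of the indices -/
def num (n k : ℕ) : Idx n k ≃ Fin (n + n * n * k) :=
  (Equiv.sumCongr (Equiv.refl _) ((Equiv.prodCongr finProdFinEquiv (Equiv.refl _)).trans
    finProdFinEquiv)).trans finSumFinEquiv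

theorem num_inl (n k : ℕ) (i : Fin n) : (num n k (.inl i)).val = i.val := by
  simp [num]

theorem num_inr (n k : ℕ) (i j : Fin n) (l : Fin k) :
    (num n k (.inr ((i, j), l))).val = n + (l.val + k * (j.val + n * i.val)) := by
  simp [num, finProdFinEquiv]

theorem supB_num (A : List (List Bool)) (n k : ℕ) (hk : 0 < k) (a b : Idx n k) :
    supB A n k (num n k a).val (num n k b).val = true ↔
      Sup (fun i j : Fin n => ent A i.val j.val = true) a b := by
  have e1 : ∀ (i j : Fin n) (l : Fin k),
      n + (l.val + k * (j.val + n * i.val)) - n = l.val + k * (j.val + n * i.val) := by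
    intro i j l
    omega
  have e2 : ∀ (i j : Fin n) (l : Fin k), (l.val + k * (j.val + n * i.val)) % k = l.val := by
    intro i j l
    rw [Nat.add_mul_mod_self_left, Nat.mod_eq_of_lt l.isLt]
  have e3 : ∀ (i j : Fin n) (l : Fin k),
      (l.val + k * (j.val + n * i.val)) / k = j.val + n * i.val := by
    intro i j l
    rw [Nat.add_mul_div_left _ _ hk, Nat.div_eq_of_lt l.isLt, zero_add]
  have e4 : ∀ (i j : Fin n), (j.val + n * i.val) / n = i.val := by
    intro i j
    have hn : 0 < n := by have := i.isLt; omega
    rw [Nat.add_mul_div_left _ _ hn, Nat.div_eq_of_lt j.isLt, zero_add]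
  have e5 : ∀ (i j : Fin n), (j.val + n * i.val) % n = j.val := by
    intro i j
    rw [Nat.add_mul_mod_self_left, Nat.mod_eq_of_lt j.isLt]
  rcases a with i | ⟨⟨i, j⟩, l⟩ <;> rcases b with i' | ⟨⟨i', j'⟩, l'⟩
  · rw [num_inl, num_inl, supB, decide_eq_true i.isLt, cond_true]
    have h1 : ¬ n ≤ i'.val := by have := i'.isLt; omega
    simp [Sup, h1]
  · rw [num_inl, num_inr, supB, decide_eq_true i.isLt, cond_true, e1, e2, e3, e4, e5]
    simp only [Sup, Bool.and_eq_true, decide_eq_true_eq]
    constructor
    · rintro ⟨_, h2, h3, h4⟩
      refine ⟨Fin.ext h3, h2, ?_⟩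
      rw [h3]
      exact h4
    · rintro ⟨h1, h2, h3⟩
      refine ⟨by omega, h2, congrArg Fin.val h1, ?_⟩
      rw [← h1]
      exact h3
  · rw [num_inr, num_inl, supB, decide_eq_false (by omega), cond_false, e1, e2, e3, e5]
    simp only [Sup, Bool.or_eq_true, Bool.and_eq_true, decide_eq_true_eq]
    have h1 := i'.isLt
    constructor
    · rintro (h | h | h)
      · omega
      · omega
      · exact ⟨Fin.ext h.2.symm, h.1⟩
    · rintro ⟨h2, h3⟩
      exact Or.inr (Or.inr ⟨h3, (congrArg Fin.val h2).symm⟩)
  · rw [num_inr, num_inr, supB, decide_eq_false (by omega), cond_false, e1, e2, e3, e5]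
    simp only [Sup, Bool.or_eq_true, Bool.and_eq_true, decide_eq_true_eq]
    have hj := j.isLt
    constructor
    · rintro (h | h | h)
      · have h2 : l'.val + k * (j'.val + n * i'.val) = l.val + k * (j.val + n * i.val) := by omega
        have h3 : l'.val = l.val := by
          have := congrArg (· % k) h2
          simp only [e2] at this
          exact this
        have h4 : j'.val + n * i'.val = j.val + n * i.val := by
          have := congrArg (· / k) h2
          simp only [e3] at this
          exact this
        have h5 : i'.val = i.val := by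
          have := congrArg (· / n) h4
          simp only [e4] at this
          exact this
        have h6 : j'.val = j.val := by
          have := congrArg (· % n) h4
          simp only [e5] at this
          exact this
        exact ⟨by rw [Fin.ext h5, Fin.ext h6], Or.inl (Fin.ext h3.symm)⟩
      · obtain ⟨h, hl⟩ := h
        have h2 : l'.val + k * (j'.val + n * i'.val) =
            (⟨l.val + 1, hl⟩ : Fin k).val + k * (j.val + n * i.val) := by
          simp only
          omega
        have h3 : l'.val = l.val + 1 := by
          have := congrArg (· % k) h2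
          simp only [e2] at this
          rw [Nat.add_mul_mod_self_left, Nat.mod_eq_of_lt hl] at this
          exact this
        have h4 : j'.val + n * i'.val = j.val + n * i.val := by
          rw [show (⟨l.val + 1, hl⟩ : Fin k).val = l'.val from h3.symm] at h2
          exact Nat.eq_of_mul_eq_mul_left hk (by omega)
        have h5 : i'.val = i.val := by
          have := congrArg (· / n) h4
          simp only [e4] at this
          exact this
        have h6 : j'.val = j.val := by
          have := congrArg (· % n) h4
          simp only [e5] at this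
          exact this
        exact ⟨by rw [Fin.ext h5, Fin.ext h6], Or.inr h3⟩
      · omega
    · rintro ⟨h1, h2⟩
      rw [Prod.mk.injEq] at h1
      rw [h1.1, h1.2]
      rcases h2 with h2 | h2
      · left
        rw [h2]
      · right; left
        exact ⟨by omega, by have := l'.isLt; omega⟩

theorem invCount_tab (p : ℕ) [Fact p.Prime] (A : List (List Bool)) (n k : ℕ) (hk : 0 < k) :
    invCount p (tab A n k) = (good (K := ZMod p) (k := k)
      (fun i j : Fin n => ent A i.val j.val = true)).card := by
  rw [← card_sup hk]
  have hlen := tab_length A n k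
  let e : Idx n k ≃ Fin (tab A n k).length := (num n k).trans (finCongr hlen.symm)
  have he : ∀ a, (e a).val = (num n k a).val := fun a => rfl
  unfold invCount
  refine Nat.card_congr (Equiv.subtypeEquiv (Matrix.reindex e.symm e.symm) fun X => ?_)
  refine and_congr ?_ ?_
  · constructor
    · intro h a b hab
      rw [Matrix.reindex_apply, Matrix.submatrix_apply]
      apply h
      rw [Equiv.symm_symm, he, he, bit_tab _ _ _ _ _ (Fin.isLt _) (Fin.isLt _)]
      rw [← supB_num A n k hk] at hab
      exact Bool.eq_false_iff.2 hab
    · intro h i j hij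
      have h1 := h (e.symm i) (e.symm j)
      rw [Matrix.reindex_apply, Matrix.submatrix_apply, Equiv.symm_symm, Equiv.apply_symm_apply,
        Equiv.apply_symm_apply] at h1
      apply h1
      rw [← supB_num A n k hk, ← he, ← he, Equiv.apply_symm_apply, Equiv.apply_symm_apply,
        ← bit_tab _ _ _ _ _ (by rw [← hlen]; exact i.isLt) (by rw [← hlen]; exact j.isLt), hij]
      simp
  · rw [Matrix.isUnit_iff_isUnit_det, isUnit_iff_ne_zero, Matrix.det_reindex_self]

/-- the number of entries `true` -/
def ones (A : List (List Bool)) (n : ℕ) : ℕ :=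
  ((List.range n).map fun i => ((List.range n).filter fun j => ent A i j).length).sum

theorem sum_map_range (n : ℕ) (f : ℕ → ℕ) :
    ((List.range n).map f).sum = ∑ i : Fin n, f i.val := by
  rw [Fin.sum_univ_eq_sum_range (fun i => f i) n]
  induction n with
  | zero => simp
  | succ n ih =>
    rw [List.range_succ, List.map_append, List.sum_append, ih, Finset.sum_range_succ]
    simp

theorem length_filter_range (n : ℕ) (f : ℕ → Bool) :
    ((List.range n).filter f).length = ∑ i : Fin n, if f i.val = true then 1 else 0 := by
  rw [Fin.sum_univ_eq_sum_range (fun i => if f i = true then 1 else 0) n]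
  induction n with
  | zero => simp
  | succ n ih =>
    rw [List.range_succ, List.filter_append, List.length_append, ih, Finset.sum_range_succ]
    congr 1
    by_cases h : f n = true
    · simp [h]
    · simp [h]

theorem nS_eq (A : List (List Bool)) (n : ℕ) :
    nS (fun i j : Fin n => ent A i.val j.val = true) = ones A n := by
  unfold nS ones
  rw [Finset.card_filter, Fintype.sum_prod_type, sum_map_range]
  refine Finset.sum_congr rfl fun i _ => ?_
  rw [length_filter_range]

/-- the weight of a permutation -/
def wgt (p n k q : ℕ) : ℕ :=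
  ((p - 1) ^ (k + 1) * (p ^ k - (p - 1) ^ k)) ^ n *
    ((p ^ (k + 1) - (p - 1) ^ (k + 1)) * (p - 1) ^ k) ^ (q - n) *
    (p ^ k * (p - 1) ^ k) ^ (n * n - q)

/-- **The permanent from the number of invertible matrices.** -/
theorem invCount_div (p : ℕ) [hp : Fact p.Prime] (A : List (List Bool))
    (h : ∀ r ∈ A, r.length = A.length) (N : ℕ) (hN : A.length = N) :
    invCount p (tab A N (kk p N)) / wgt p N (kk p N) (ones A N) = F A := by
  have h1 := count_div (K := ZMod p) (fun i j : Fin N => ent A i.val j.val = true)
  have h2 : wt (ZMod p) N (kk (Fintype.card (ZMod p)) N)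
      (nS (fun i j : Fin N => ent A i.val j.val = true)) =
      wgt p N (kk p N) (ones A N) := by
    rw [wt, card_C1, card_C0, card_C0', nS_eq, ZMod.card, wgt]
  rw [h2, ZMod.card] at h1
  have hk : 0 < kk p N := by
    have := kk_pos (ZMod p) N
    rwa [ZMod.card] at this
  rw [invCount_tab p A N (kk p N) hk, h1, F_eq_card' A h N hN, perms]

end Pool.Agent.TH925.DP
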